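import Pool.Agent.H.MP_ad013a_pr.h63.Loop
import Pool.Agent.H.MP_ad013a_pr.h63u.UK

/-!
# From the checks of blocks of 128 entries to the check of all entries
-/

namespace Pool.Agent.ad013a

/-- all entries of the number `n` pass the check, upper bound -/
def PrV (chk : Nat → Bool) (n : Nat) : Prop := ∀ j : Nat, chk (uent n (Nat.land j 127)) = true

/-- all entries of the number `n` pass the check, lower bound -/
def PrL (chk : Nat → Bool) (n : Nat) : Prop := ∀ j : Nat, chk (ent n (Nat.land j 127)) = true

theorem leafV {chk : Nat → Bool} {n : Nat} (h : lp7 (fun s => chk (uent n s)) 0 = true) :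
    PrV chk n := by
  intro j
  have hj : Nat.land j 127 ≤ 127 := Nat.and_le_right
  have := lp7_all _ _ h (Nat.land j 127) (by omega)
  rwa [Nat.zero_add] at this

theorem leafL {chk : Nat → Bool} {n : Nat} (h : lp7 (fun s => chk (ent n s)) 0 = true) :
    PrL chk n := by
  intro j
  have hj : Nat.land j 127 ≤ 127 := Nat.and_le_right
  have := lp7_all _ _ h (Nat.land j 127) (by omega)
  rwa [Nat.zero_add] at this

end Pool.Agent.ad013a
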