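import Pool.Agent.H.MP_ad013a_pr.h63w.WFin
import Pool.Agent.H.MP_ad013a_pr.h63w.WFlat
import Pool.Agent.H.MP_ad013a_pr.h63w.A.F

/-!
# The upper bound for fair letters, with weights
-/

namespace Pool.Agent.ad013a

open Filter Topology

theorem num_leW {zn zd Ld Ln a b : ℕ} (hzd : 0 < zd) (hz : zd < zn) (hLd : 0 < Ld) (hLn : 0 < Ln)
    (hb : 0 < b)
    (h : Nat.ble (Nat.succ (Nat.mul (Nat.pow Ln (Nat.mul 2 b)) (Nat.pow zd a)))
      (Nat.mul (Nat.pow zn a) (Nat.pow Ld (Nat.mul 2 b))) = true) :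
    2 * Real.log ((Ln : ℝ) / Ld) / Real.log ((zn : ℝ) / zd) < (a : ℝ) / b := by
  rw [Nat.ble_eq] at h
  have h' : Ln ^ (2 * b) * zd ^ a < zn ^ a * Ld ^ (2 * b) := h
  have hzd' : (0 : ℝ) < zd := by exact_mod_cast hzd
  have hzn' : (0 : ℝ) < zn := by exact_mod_cast hzd.trans hz
  have hLd' : (0 : ℝ) < Ld := by exact_mod_cast hLd
  have hLn' : (0 : ℝ) < Ln := by exact_mod_cast hLn
  have hb' : (0 : ℝ) < b := by exact_mod_cast hb
  have hlz : 0 < Real.log ((zn : ℝ) / zd) := by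
    apply Real.log_pos
    rw [one_lt_div hzd']
    exact_mod_cast hz
  rw [div_lt_div_iff₀ hlz hb']
  have h2 : ((Ln : ℝ) / Ld) ^ (2 * b) < ((zn : ℝ) / zd) ^ a := by
    rw [div_pow, div_pow, div_lt_div_iff₀ (by positivity) (by positivity)]
    exact_mod_cast h'
  have h3 := Real.log_lt_log (by positivity) h2
  rw [Real.log_pow, Real.log_pow] at h3
  push_cast at h3
  linarith

theorem cstW : Cst 23 10 10000000 14072689 103 102 21 20
    106090000000 104040000000 2956953412680 4410000000 4000000000 118210587600 := by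
  refine ⟨?_, ?_, ?_, ?_, ?_, ?_, ?_, ?_, ?_, ?_, ?_, ?_, ?_, ?_, ?_, ?_⟩ <;> norm_num

theorem upperW : ∃ C : ℝ, Tendsto (fun n : ℕ => EL (1 / 2) n / n) atTop (𝓝 C) ∧ C < 0.8204 := by
  obtain ⟨C, hC⟩ := exists_lim (p := 1 / 2) (by norm_num) (by norm_num)
  refine ⟨C, hC, ?_⟩
  have hh : ∀ i, chkW 23 10 106090000000 104040000000 2956953412680 4410000000 4000000000
      118210587600 W.g (W.g i) = true := by
    intro i
    rw [← chkX_eq]
    exact W.all_ok i
  have h1 := lim_le_of_chkW cstW hh W.start_ok hC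
  have h2 := num_leW (zn := 23) (zd := 10) (Ld := 10000000) (Ln := 14072689) (a := 8204) (b := 10000)
    (by norm_num) (by norm_num) (by norm_num) (by norm_num) (by norm_num) (by decide +kernel)
  have h3 := lt_of_le_of_lt h1 h2
  norm_num at h3
  linarith

end Pool.Agent.ad013a
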