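import Pool.Agent.H.MP_ad013a_pr.h63w.WPtr

/-!
# From the checks to the upper bound, with weights
-/

namespace Pool.Agent.ad013a

open Filter Topology

/-- the weights: repetition of the last letter has weight `m1 / k1` if the last two letters agree
and `m0 / k0` otherwise -/
noncomputable def bw (m0 k0 m1 k1 : ℕ) : List Bool → Bool → ℝ
  | c1 :: c2 :: _, a =>
    if c1 = c2 then (if a = c1 then (m1 : ℝ) / k1 else (k1 : ℝ) / m1)
    else (if a = c1 then (m0 : ℝ) / k0 else (k0 : ℝ) / m0)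
  | [_], _ => 1
  | [], _ => 1

theorem bw_Wts {m0 k0 m1 k1 : ℕ} (hm0 : 0 < m0) (hk0 : 0 < k0) (hm1 : 0 < m1) (hk1 : 0 < k1) :
    Wts (bw m0 k0 m1 k1) := by
  have a0 : (0 : ℝ) < m0 := by exact_mod_cast hm0
  have a1 : (0 : ℝ) < k0 := by exact_mod_cast hk0
  have a2 : (0 : ℝ) < m1 := by exact_mod_cast hm1
  have a3 : (0 : ℝ) < k1 := by exact_mod_cast hk1
  constructor
  · intro h a
    rcases h with _ | ⟨c1, _ | ⟨c2, h⟩⟩
    · simp [bw]
    · simp [bw]
    · simp only [bw]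
      split <;> split <;> positivity
  · intro h
    rcases h with _ | ⟨c1, _ | ⟨c2, h⟩⟩
    · simp [bw]
    · simp [bw]
    · cases c1 <;> cases c2 <;> simp [bw] <;> field_simp
  · intro h a
    rcases h with _ | ⟨c1, _ | ⟨c2, h⟩⟩
    · simp [bw]
    · simp [bw]
    · cases c1 <;> cases c2 <;> cases a <;> simp [bw]

theorem bw_avg {m0 k0 m1 k1 Ln Ld : ℕ} (hm0 : 0 < m0) (hk0 : 0 < k0) (hm1 : 0 < m1)
    (hk1 : 0 < k1) (hLd : 0 < Ld) (hL : Ld ≤ Ln)
    (h0 : Ld * (m0 * m0 + k0 * k0) ≤ 2 * Ln * (m0 * k0))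
    (h1 : Ld * (m1 * m1 + k1 * k1) ≤ 2 * Ln * (m1 * k1)) (h : List Bool) :
    1 / 2 * (bw m0 k0 m1 k1 h false + bw m0 k0 m1 k1 h true) ≤ (Ln : ℝ) / Ld := by
  have key : ∀ m k : ℕ, 0 < m → 0 < k → Ld * (m * m + k * k) ≤ 2 * Ln * (m * k) →
      1 / 2 * ((m : ℝ) / k + (k : ℝ) / m) ≤ (Ln : ℝ) / Ld := by
    intro m k hm hk hh
    have a0 : (0 : ℝ) < m := by exact_mod_cast hm
    have a1 : (0 : ℝ) < k := by exact_mod_cast hk
    have a2 : (0 : ℝ) < Ld := by exact_mod_cast hLd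
    have hh' : (Ld : ℝ) * (m * m + k * k) ≤ 2 * Ln * (m * k) := by exact_mod_cast hh
    have e : 1 / 2 * ((m : ℝ) / k + (k : ℝ) / m) = (m * m + k * k) / (2 * (m * k)) := by
      field_simp
    rw [e, div_le_div_iff₀ (by positivity) a2]
    linarith
  have b : (1 : ℝ) ≤ (Ln : ℝ) / Ld := by
    rw [one_le_div (by exact_mod_cast hLd)]
    exact_mod_cast hL
  rcases h with _ | ⟨c1, _ | ⟨c2, h⟩⟩
  · simp only [bw]; linarith
  · simp only [bw]; linarith
  · have e0 := key m0 k0 hm0 hk0 h0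
    have e1 := key m1 k1 hm1 hk1 h1
    cases c1 <;> cases c2 <;> simp only [bw, if_true, Bool.false_eq_true, Bool.true_eq_false,
      if_false] <;> linarith

theorem iv_real {zn zd Ld Ln m k x y w r0 r1 W0 W1 W : ℕ} (hzd : 0 < zd) (hz : zd ≤ zn)
    (hLd : 0 < Ld) (hm : 0 < m) (hk : 0 < k) (hx : x = Ld * (m * m)) (hy : y = Ld * (k * k))
    (hw : w = 2 * Ln * zd * (m * k)) {b0 b1 : Bool} (h0 : r0 = b0.toNat) (h1 : r1 = b1.toNat)
    (H : iv x y w (pw zn zd r0 W0) (pw zn zd r1 W1) W = true) :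
    1 / 2 * ((m : ℝ) / k * (((zn : ℝ) / zd) ^ b0.toNat * W0)) +
      1 / 2 * ((k : ℝ) / m * (((zn : ℝ) / zd) ^ b1.toNat * W1)) ≤ ((Ln : ℝ) / Ld) * W := by
  unfold iv pw at H
  rw [Nat_ble_eq] at H
  change x * ((zd + r0 * (zn - zd)) * W0) + y * ((zd + r1 * (zn - zd)) * W1) ≤ w * W at H
  have H' := (Nat.cast_le (α := ℝ)).2 H
  rw [hx, hy, hw] at H'
  push_cast [Nat.cast_sub hz] at H'
  have hzd' : (0 : ℝ) < zd := by exact_mod_cast hzd
  have hLd' : (0 : ℝ) < Ld := by exact_mod_cast hLd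
  have hm' : (0 : ℝ) < m := by exact_mod_cast hm
  have hk' : (0 : ℝ) < k := by exact_mod_cast hk
  have e0 : ((zn : ℝ) / zd) ^ b0.toNat = (zd + r0 * (zn - zd)) / zd := by
    rw [h0]; cases b0
    · simp; field_simp
    · simp
  have e1 : ((zn : ℝ) / zd) ^ b1.toNat = (zd + r1 * (zn - zd)) / zd := by
    rw [h1]; cases b1
    · simp; field_simp
    · simp
  rw [e0, e1]
  have e2 : 1 / 2 * ((m : ℝ) / k * (((zd : ℝ) + r0 * (zn - zd)) / zd * W0)) +
      1 / 2 * ((k : ℝ) / m * (((zd : ℝ) + r1 * (zn - zd)) / zd * W1)) =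
      (Ld * (m * m) * ((zd + r0 * (zn - zd)) * W0) + Ld * (k * k) *
        ((zd + r1 * (zn - zd)) * W1)) / (2 * zd * Ld * (m * k)) := by
    field_simp
  have e3 : ((Ln : ℝ) / Ld) * W = (2 * Ln * zd * (m * k) * W) / (2 * zd * Ld * (m * k)) := by
    field_simp
  rw [e2, e3]
  exact div_le_div_of_nonneg_right H' (by positivity)

section

variable {zn zd Ld Ln m0 k0 m1 k1 x0 y0 w0 x1 y1 w1 : ℕ}

/-- what is assumed of the constants -/
structure Cst (zn zd Ld Ln m0 k0 m1 k1 x0 y0 w0 x1 y1 w1 : ℕ) : Prop where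
  hzd : 0 < zd
  hz : zd < zn
  hLd : 0 < Ld
  hL : Ld ≤ Ln
  hm0 : 0 < m0
  hk0 : 0 < k0
  hm1 : 0 < m1
  hk1 : 0 < k1
  hx0 : x0 = Ld * (m0 * m0)
  hy0 : y0 = Ld * (k0 * k0)
  hw0 : w0 = 2 * Ln * zd * (m0 * k0)
  hx1 : x1 = Ld * (m1 * m1)
  hy1 : y1 = Ld * (k1 * k1)
  hw1 : w1 = 2 * Ln * zd * (m1 * k1)
  a0 : Ld * (m0 * m0 + k0 * k0) ≤ 2 * Ln * (m0 * k0)
  a1 : Ld * (m1 * m1 + k1 * k1) ≤ 2 * Ln * (m1 * k1)

theorem iqc_sound (hc : Cst zn zd Ld Ln m0 k0 m1 k1 x0 y0 w0 x1 y1 w1) {r0 r1 W0 W1 W : ℕ}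
    {b0 b1 : Bool} (h0 : r0 = b0.toNat) (h1 : r1 = b1.toNat) {x : List Site}
    (H : iqc x0 y0 w0 x1 y1 w1 x.length (el x.reverse) (pw zn zd r0 W0) (pw zn zd r1 W1) W
      = true) (h : List Bool) (hh : Hs h x) :
    1 / 2 * (bw m0 k0 m1 k1 h false * (((zn : ℝ) / zd) ^ b0.toNat * W0)) +
      1 / 2 * (bw m0 k0 m1 k1 h true * (((zn : ℝ) / zd) ^ b1.toNat * W1)) ≤
      ((Ln : ℝ) / Ld) * W := by
  have I1 := iv_real (W0 := W0) (W1 := W1) (W := W) hc.hzd hc.hz.le hc.hLd hc.hm1 hc.hk1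
    hc.hx1 hc.hy1 hc.hw1 h0 h1
  have hw1' : w1 = 2 * Ln * zd * (k1 * m1) := by rw [hc.hw1, Nat.mul_comm m1 k1]
  have hw0' : w0 = 2 * Ln * zd * (k0 * m0) := by rw [hc.hw0, Nat.mul_comm m0 k0]
  have I1' := iv_real (W0 := W0) (W1 := W1) (W := W) (m := k1) (k := m1) hc.hzd hc.hz.le hc.hLd
    hc.hk1 hc.hm1 hc.hy1 hc.hx1 hw1' h0 h1
  have I0 := iv_real (W0 := W0) (W1 := W1) (W := W) hc.hzd hc.hz.le hc.hLd hc.hm0 hc.hk0
    hc.hx0 hc.hy0 hc.hw0 h0 h1
  have I0' := iv_real (W0 := W0) (W1 := W1) (W := W) (m := k0) (k := m0) hc.hzd hc.hz.le hc.hLd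
    hc.hk0 hc.hm0 hc.hy0 hc.hx0 hw0' h0 h1
  obtain ⟨hl, hp⟩ := hh
  rcases h with _ | ⟨c1, _ | ⟨c2, h⟩⟩
  · simp at hl
  · simp at hl
  rcases x with _ | ⟨s1, _ | ⟨s2, x⟩⟩
  · have H' : rb false (rb false (rb false (iv x1 y1 w1 (pw zn zd r0 W0) (pw zn zd r1 W1) W)
        (iv x0 y0 w0 (pw zn zd r0 W0) (pw zn zd r1 W1) W))
        (iv y0 x0 w0 (pw zn zd r0 W0) (pw zn zd r1 W1) W))
        (iv y1 x1 w1 (pw zn zd r0 W0) (pw zn zd r1 W1) W) = true := H
    rw [rb_and, rb_and, rb_and] at H'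
    obtain ⟨q1, q2, q3, q4⟩ := H'
    cases c1 <;> cases c2
    · simpa [bw] using I1 q4
    · simpa [bw] using I0 q3
    · simpa [bw] using I0' q2
    · simpa [bw] using I1' q1
  · have hs : s1.2 = c1 := by
      have := hp
      simp only [lets, List.map_cons, List.map_nil] at this
      obtain ⟨u, hu⟩ := this
      simpa using congrArg List.head? hu
    have H' : rb (rb false (iv x1 y1 w1 (pw zn zd r0 W0) (pw zn zd r1 W1) W)
          (iv x0 y0 w0 (pw zn zd r0 W0) (pw zn zd r1 W1) W))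
        (rb false (iv y1 x1 w1 (pw zn zd r0 W0) (pw zn zd r1 W1) W)
          (iv y0 x0 w0 (pw zn zd r0 W0) (pw zn zd r1 W1) W))
        (Nat.beq (el [s1].reverse) 1) = true := H
    have e : el [s1].reverse = s1.2.toNat := by simp [el, Nat.bit_val]
    rw [e, hs] at H'
    cases c1
    · have H2 : rb false (iv x1 y1 w1 (pw zn zd r0 W0) (pw zn zd r1 W1) W)
          (iv x0 y0 w0 (pw zn zd r0 W0) (pw zn zd r1 W1) W) = true := H'
      rw [rb_and] at H2
      cases c2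
      · simpa [bw] using I1 H2.2
      · simpa [bw] using I0 H2.1
    · have H2 : rb false (iv y1 x1 w1 (pw zn zd r0 W0) (pw zn zd r1 W1) W)
          (iv y0 x0 w0 (pw zn zd r0 W0) (pw zn zd r1 W1) W) = true := H'
      rw [rb_and] at H2
      cases c2
      · simpa [bw] using I0' H2.1
      · simpa [bw] using I1' H2.2
  · have hs : s1.2 = c1 ∧ s2.2 = c2 := by
      have := hp
      simp only [lets, List.map_cons] at this
      obtain ⟨u, hu⟩ := this
      rw [List.cons_append, List.cons_append, List.cons.injEq, List.cons.injEq] at hu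
      exact ⟨hu.1, hu.2.1⟩
    have H' : rb
        (rb (iv x1 y1 w1 (pw zn zd r0 W0) (pw zn zd r1 W1) W)
          (iv x0 y0 w0 (pw zn zd r0 W0) (pw zn zd r1 W1) W)
          (Nat.beq (Nat.land (Nat.shiftRight (el (s1 :: s2 :: x).reverse) x.length) 1) 1))
        (rb (iv y0 x0 w0 (pw zn zd r0 W0) (pw zn zd r1 W1) W)
          (iv y1 x1 w1 (pw zn zd r0 W0) (pw zn zd r1 W1) W)
          (Nat.beq (Nat.land (Nat.shiftRight (el (s1 :: s2 :: x).reverse) x.length) 1) 1))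
        (Nat.ble 2 (Nat.shiftRight (el (s1 :: s2 :: x).reverse) x.length)) = true := H
    have e : Nat.shiftRight (el (s1 :: s2 :: x).reverse) x.length =
        2 * c1.toNat + c2.toNat := by
      have := el_take (s1 :: s2 :: x) (n := 2) (by simp)
      simp only [List.length_cons, List.take_succ_cons, List.take_zero, List.reverse_cons,
        List.reverse_nil, List.nil_append, List.cons_append, el, Nat.bit_val] at this
      rw [hs.1, hs.2] at this
      have e2 : x.length + 1 + 1 - 2 = x.length := by omega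
      rw [e2] at this
      simp only [List.reverse_cons]
      change _ >>> x.length = _
      rw [← this]
      ring
    rw [e] at H'
    cases c1 <;> cases c2
    · simpa [bw] using I1 H'
    · simpa [bw] using I0 H'
    · simpa [bw] using I0' H'
    · simpa [bw] using I1' H'

end

end Pool.Agent.ad013a
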