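import Pool.Agent.H.MP_ad013a_pr.h63w.WKinds

/-!
# The upper bound from the checks, with weights
-/

namespace Pool.Agent.ad013a

open Filter Topology

variable {β : List Bool → Bool → ℝ}

section

variable {zn zd Ld Ln m0 k0 m1 k1 x0 y0 w0 x1 y1 w1 : ℕ} {g : ℕ → ℕ} {e : ℕ} {x y : List Site}

theorem k2W_sound (hβ : Wts β) {Λ : ℝ} (hzd : 0 < zd) (hz : zd ≤ zn) {R ee : Bool}
    {x' y' : List Site} (hee : ue e = ee.toNat) (hE : Enc e x y) (hgood : Dp R ee x y x' y')
    (H : k2D zn zd g e = true) :
    AltW β ((zn : ℝ) / zd) Λ (UTW g) (ur e) (US.dif R ee x y x' y') (uW e) := by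
  have hz1 : 1 ≤ (zn : ℝ) / zd := by
    rw [one_le_div (by exact_mod_cast hzd)]
    exact_mod_cast hz
  unfold k2D at H
  simp only at H
  rw [rb_and, rb_and, rb_and] at H
  obtain ⟨HW, H0, He, HP⟩ := H
  rw [Nat_ble_eq] at HW H0
  rw [Nat_beq_eq] at He
  obtain ⟨⟨h1, h2, h3⟩, ⟨h4, h5, h6⟩⟩ := hE
  have het : ee = true := by
    rw [hee] at He
    cases ee
    · simp at He
    · rfl
  subst het
  rw [h1, h2, h3, h4, h5, h6] at HP
  have K0 := ptP_soundW hβ ((zn : ℝ) / zd) HP
  have hzd' : (0 : ℝ) < zd := by exact_mod_cast hzd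
  have hzn' : (0 : ℝ) < zn := by exact_mod_cast lt_of_lt_of_le hzd hz
  have hc : 0 ≤ 1 - 1 / ((zn : ℝ) / zd) := by
    rw [sub_nonneg, div_le_one (by linarith)]
    exact hz1
  have HW' : ((zn : ℝ) - zd) * uW (g (up0 e)) ≤ zn * uW e := by
    have := (Nat.cast_le (α := ℝ)).2 HW
    change (((zn - zd) * uW (g (up0 e)) : ℕ) : ℝ) ≤ ((zn * uW e : ℕ) : ℝ) at this
    push_cast [Nat.cast_sub hz] at this
    exact this
  refine Or.inr ⟨1 - 1 / ((zn : ℝ) / zd), 0, US.psi x y, US.psi x y, _, _, hc, le_rfl, ?_,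
    ⟨List.prefix_rfl, List.prefix_rfl⟩, ⟨List.prefix_rfl, List.prefix_rfl⟩,
    mkPw (P := fun j => j < ur e) H0 K0, mkPw (P := fun j => j < ur e) H0 K0, ?_⟩
  · intro X Y
    rw [zero_mul, add_zero]
    exact dif_psi hz1 hgood X Y
  · rw [zero_mul, add_zero]
    have e1 : (1 - 1 / ((zn : ℝ) / zd)) * (uW (g (up0 e)) : ℝ) =
        (((zn : ℝ) - zd) * uW (g (up0 e))) / zn := by
      field_simp
    rw [e1, div_le_iff₀ hzn']
    linarith

theorem w3D_sound (hβ : Wts β) {Λ : ℝ} (hzd : 0 < zd) (hz : zd ≤ zn) {R ee : Bool}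
    {x' y' : List Site} (hR : uR e = R.toNat) (hee : ue e = ee.toNat) (hE : Enc e x y)
    (hgood : Dp R ee x y x' y')
    (hA : R = ee → kk ee.toNat (fhx e) (up e) = eh x'.reverse)
    (H : w3D zn zd g e = true) :
    AltW β ((zn : ℝ) / zd) Λ (UTW g) (ur e) (US.dif R ee x y x' y') (uW e) := by
  have hz1 : 1 ≤ (zn : ℝ) / zd := by
    rw [one_le_div (by exact_mod_cast hzd)]
    exact_mod_cast hz
  unfold w3D at H
  simp only at H
  rw [rb_and, rb_and, rb_and, rb_and, rb_and, rb_and, rb_and, rb_and] at H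
  obtain ⟨HW, H0, Hp, He, HR, Hl, Hq, Hh, HP⟩ := H
  rw [Nat_ble_eq] at HW H0 Hl
  rw [Nat_beq_eq] at He Hp HR Hq Hh
  obtain ⟨⟨h1, h2, h3⟩, ⟨h4, h5, h6⟩⟩ := hE
  have hRf : R = false := by
    rw [hR] at HR
    cases R
    · rfl
    · simp at HR
  have hef : ee = false := by
    rw [hee] at He
    cases ee
    · rfl
    · simp at He
  subst hRf hef
  rw [h1] at Hh Hq
  obtain ⟨t, c, rfl⟩ := far_hole Hh
  obtain ⟨k1, rfl⟩ := hgood
  have hA' : eh x'.reverse = 2 * eh t.reverse := by
    rw [← hA rfl, Hp, h1, eh_snoc]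
    change (2 * eh t.reverse + 1) - 1 = _
    omega
  have hx' : x' = t ++ [(true, c)] := by
    rcases List.eq_nil_or_concat x' with rfl | ⟨t', ⟨p', c'⟩, rfl⟩
    · have := k1.length_eq
      simp at this
    · rw [List.concat_eq_append] at k1 hA' ⊢
      have hl := k1.length_eq
      simp only [List.length_append, List.length_singleton, add_left_inj] at hl
      rcases Rel1.split hl.symm k1 with ⟨-, k2⟩ | ⟨k2, k3⟩
      · exfalso
        rw [List.cons.injEq] at k2
        obtain ⟨k2, -⟩ := k2
        rw [← k2, eh_snoc] at hA'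
        simp at hA'
        omega
      · rw [k2]
        cases k3 with
        | here c t => rfl
        | there r h => cases h
  subst hx'
  have hlt : up1 e < (t ++ [(false, c)]).length := by
    rw [← h3]
    exact Hl
  obtain ⟨gg, g1, g2, g3, g4⟩ := flat_ex (t ++ [(false, c)]).reverse (up1 e)
    (by rw [List.length_reverse]; exact hlt) Hq
  rw [List.reverse_reverse] at g1
  obtain ⟨T, hT⟩ : ∃ T, gg.reverse = T ++ [(false, c)] ∧ Rel1 T t := by
    have gl : gg.reverse.length = (t ++ [(false, c)]).length := by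
      rw [List.length_reverse, g4, List.length_reverse]
    rcases List.eq_nil_or_concat gg.reverse with h0 | ⟨T, b, h0⟩
    · rw [h0] at gl
      simp at gl
    · rw [List.concat_eq_append] at h0
      rw [h0] at g1 gl
      simp only [List.length_append, List.length_singleton, add_left_inj] at gl
      rcases Rel1.split gl g1 with ⟨k2, k3⟩ | ⟨-, k3⟩
      · rw [k3] at h0
        exact ⟨T, h0, k2⟩
      · cases k3 with
        | there r h => cases h
  obtain ⟨hT, hTt⟩ := hT
  have hgg : gg = (T ++ [(false, c)]).reverse := by rw [← hT, List.reverse_reverse]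
  rw [hgg] at g2 g3
  have lT : (T ++ [(false, c)]).length = (t ++ [(false, c)]).length := by
    rw [List.length_append, List.length_append, hTt.length_eq]
  have lett : lets (T ++ [(false, c)]) = lets (t ++ [(false, c)]) := by
    have : ∀ {f f' : List Site}, Rel1 f f' → lets f' = lets f := by
      intro f f' h
      induction h with
      | here c t => rfl
      | there r _ ih =>
        simp only [lets, List.map_cons] at ih ⊢
        rw [ih]
    have h' := this hTt
    simp only [lets, List.map_append] at h' ⊢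
    rw [h']
  have e1 : Nat.add (fhx e) (Nat.pow 2 (up1 e)) = eh (T ++ [(false, c)]).reverse := by
    rw [g2, h1]; rfl
  have e2 : Nat.sub (eh (T ++ [(false, c)]).reverse) 1 = eh (T ++ [(true, c)]).reverse := by
    change _ - 1 = _
    rw [eh_snoc, eh_snoc]
    simp
  rw [e1, e2, h2, h3, h4, h5, h6, ← g3, ← lT] at HP
  have K0 := ptA_sound (e := false) hβ hz1 ⟨Rel1.far T c, rfl⟩ HP
  have hzd' : (0 : ℝ) < zd := by exact_mod_cast hzd
  have hzn' : (0 : ℝ) < zn := by exact_mod_cast lt_of_lt_of_le hzd hz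
  have HW' : (zd : ℝ) * uW (g (up0 e)) ≤ zn * uW e := by
    have := (Nat.cast_le (α := ℝ)).2 HW
    change ((zd * uW (g (up0 e)) : ℕ) : ℝ) ≤ ((zn * uW e : ℕ) : ℝ) at this
    push_cast at this
    exact this
  have hpre : lets (US.dif false false (T ++ [(false, c)]) y (T ++ [(true, c)]) y).fsd <+:
      lets (US.dif false false (t ++ [(false, c)]) y (t ++ [(true, c)]) y).fsd := by
    change lets (T ++ [(false, c)]) <+: lets (t ++ [(false, c)])
    rw [lett]
  refine Or.inr ⟨1 / ((zn : ℝ) / zd), 0,
    US.dif false false (T ++ [(false, c)]) y (T ++ [(true, c)]) y,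
    US.dif false false (T ++ [(false, c)]) y (T ++ [(true, c)]) y, _, _,
    by positivity, le_rfl, ?_, ⟨hpre, List.prefix_rfl⟩, ⟨hpre, List.prefix_rfl⟩,
    mkPw (P := fun j => j < ur e) H0 K0, mkPw (P := fun j => j < ur e) H0 K0, ?_⟩
  · intro X Y
    rw [zero_mul, add_zero]
    exact dif_flat hz1 hTt c y X Y
  · rw [zero_mul, add_zero]
    have e1 : 1 / ((zn : ℝ) / zd) * (uW (g (up0 e)) : ℝ) = (zd * uW (g (up0 e))) / zn := by
      field_simp
    rw [e1, div_le_iff₀ hzn']
    linarith

end

theorem toNat_inj' {a b : Bool} (h : a.toNat = b.toNat) : a = b := by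
  cases a <;> cases b <;> simp at h ⊢

theorem certW_of_chk {zn zd Ld Ln m0 k0 m1 k1 x0 y0 w0 x1 y1 w1 : ℕ} {g : ℕ → ℕ}
    (hc : Cst zn zd Ld Ln m0 k0 m1 k1 x0 y0 w0 x1 y1 w1)
    (hchk : ∀ i, chkW zn zd x0 y0 w0 x1 y1 w1 g (g i) = true) :
    US.CertW (bw m0 k0 m1 k1) ((zn : ℝ) / zd) ((Ln : ℝ) / Ld) 1 (UTW g) := by
  rintro i s W ⟨j, rfl, hE, rfl⟩ hgood
  have H := hchk j
  unfold chkW at H
  rw [rb_and, Nat_ble_eq] at H
  obtain ⟨HW, H⟩ := H
  refine ⟨by exact_mod_cast HW, ?_, ?_⟩
  · have := fnx_le (g j)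
    cases s with
    | psi x y => rw [hE.2.1.2.2] at this; exact this
    | dif R e x y x' y' => rw [hE.2.2.2.1.1.2.2] at this; exact this
  · change AltW _ _ _ _ _ _ _
    rcases rb_or.1 H with ⟨hD, H⟩ | ⟨hD, H⟩
    · cases s with
      | psi x y =>
        rw [hE.1] at hD
        simp at hD
      | dif R ee x y x' y' =>
        obtain ⟨-, hR, hee, hE', hA, hB⟩ := hE
        rcases rb_or.1 H with ⟨-, H⟩ | ⟨-, H⟩
        · rcases rb_or.1 H with ⟨-, H⟩ | ⟨-, H⟩
          · rcases rb_or.1 H with ⟨-, H⟩ | ⟨-, H⟩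
            · exact w3D_sound hc.wts hc.hzd hc.hz.le hR hee hE' hgood hA H
            · exact k2W_sound hc.wts hc.hzd hc.hz.le hee hE' hgood H
          · rcases rb_or.1 H with ⟨hne, H⟩ | ⟨heq, H⟩
            · -- marker on the second side
              have hne' : R ≠ ee := by
                rintro rfl
                rw [hR, hee, Nat.beq_refl] at hne
                cases hne
              have he1 : ee = true := by
                unfold w1B at H
                simp only at H
                rw [rb_and, rb_and, rb_and, rb_and, rb_and, rb_and] at H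
                have := H.2.2.2.1
                rw [Nat_beq_eq, hee] at this
                cases ee
                · simp at this
                · rfl
              subst he1
              have hRf : R = false := by
                cases R
                · rfl
                · exact absurd rfl hne'
              subst hRf
              obtain ⟨rfl, hg⟩ := hgood
              have hB' : fhy (g j) + up (g j) = eh y'.reverse := hB (by simp)
              exact w1B_sound hc.wts hc.z1 hg hE' hB' H
            · rw [Nat_beq_eq, hR, hee] at heq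
              have he := toNat_inj' heq
              subst he
              have he0 : R = false := by
                unfold w1A at H
                simp only at H
                rw [rb_and, rb_and, rb_and, rb_and, rb_and, rb_and, rb_and] at H
                have := H.2.2.2.1
                rw [Nat_beq_eq, hee] at this
                cases R
                · rfl
                · simp at this
              subst he0
              obtain ⟨hg, rfl⟩ := hgood
              have hA' : fhx (g j) - up (g j) = eh x'.reverse := hA rfl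
              exact w1A_sound hc.wts hc.z1 hg hE' hA' H
        · rcases rb_or.1 H with ⟨hne, H⟩ | ⟨heq, H⟩
          · have hne' : R = !ee := by
              cases R <;> cases ee
              · rw [hR, hee, Nat.beq_refl] at hne
                cases hne
              · rfl
              · rfl
              · rw [hR, hee, Nat.beq_refl] at hne
                cases hne
            subst hne'
            have hxx := Dp_ne hgood
            subst hxx
            exact w0B_sound hc hgood hee hE' (hB (by cases ee <;> simp)) H _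
          · rw [Nat_beq_eq, hR, hee] at heq
            have he := toNat_inj' heq
            subst he
            have hyy := Dp_ee hgood
            subst hyy
            exact w0A_sound hc hgood hee hE' (hA rfl) H _
    · rw [Nat_beq_eq] at hD
      cases s with
      | dif R ee x y x' y' =>
        rw [hE.1] at hD
        simp at hD
      | psi x y =>
        rcases rb_or.1 H with ⟨-, H⟩ | ⟨-, H⟩
        · rw [rb_and] at H
          exact w1P_sound hc.wts hc.z1 hE.2 H.2
        · exact w0P_sound hc hE.2 H _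

theorem lim_le_of_chkW {zn zd Ld Ln m0 k0 m1 k1 x0 y0 w0 x1 y1 w1 : ℕ} {g : ℕ → ℕ}
    (hc : Cst zn zd Ld Ln m0 k0 m1 k1 x0 y0 w0 x1 y1 w1)
    (hchk : ∀ i, chkW zn zd x0 y0 w0 x1 y1 w1 g (g i) = true)
    (h0 : uD (g 0) = 0 ∧ fhx (g 0) = 0 ∧ flx (g 0) = 0 ∧ fnx (g 0) = 2 ∧
      fhy (g 0) = 0 ∧ fly (g 0) = 0 ∧ fny (g 0) = 2) {C : ℝ}
    (hC : Tendsto (fun n : ℕ => EL (1 / 2) n / n) atTop (𝓝 C)) :
    C ≤ 2 * Real.log ((Ln : ℝ) / Ld) / Real.log ((zn : ℝ) / zd) := by
  have hzd' : (0 : ℝ) < zd := by exact_mod_cast hc.hzd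
  have hLd' : (0 : ℝ) < Ld := by exact_mod_cast hc.hLd
  obtain ⟨q0, q1, q2, q3, q4, q5, q6⟩ := h0
  refine upper_limW (W0 := uW (g 0)) (i0 := ur (g 0)) ?_ hc.wts ?_
    (bw_avg hc.hm0 hc.hk0 hc.hm1 hc.hk1 hc.hLd hc.hL hc.a0 hc.a1) one_pos
    (certW_of_chk hc hchk) ⟨0, rfl, ⟨q0, ⟨q1, q2, q3⟩, ⟨q4, q5, q6⟩⟩, rfl⟩ hC
  · rw [one_lt_div hzd']
    exact_mod_cast hc.hz
  · rw [one_le_div hLd']
    exact_mod_cast hc.hL

end Pool.Agent.ad013a
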