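import Pool.Agent.H.MP_ad013a_pr.h63u.UK

/-!
# The checker for the upper bound with weights

The entries are as before. In a pair the marker (the site at which the two states differ) is on
the first side if `R = e` and on the second side otherwise.
-/

namespace Pool.Agent.ad013a

/-- position of the marker -/
noncomputable def uq (e : Nat) : Nat := Nat.land (Nat.shiftRight e 64) 15

/-- mask of the holes of the second state on the side of the marker -/
noncomputable def kk (e h p : Nat) : Nat :=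
  Bool.rec (motive := fun _ => Nat) (Nat.add h p) (Nat.sub h p) (Nat.beq e 0)

/-- far sites may be dropped, holes may be turned into particles -/
noncomputable def cmpS (h l n h' l' n' : Nat) : Bool :=
  rb false ((fun d => rb false (Nat.beq (Nat.shiftRight l d) l')
    (Nat.beq (Nat.land h' (Nat.shiftRight h d)) h')) (Nat.sub n n')) (Nat.ble n' n)

/-- the same beyond the marker, whose position is `q` -/
noncomputable def cmpG (h k l n h' k' l' n' q : Nat) : Bool :=
  rb false ((fun d => rb false (rb false (rb false (rb false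
    (Nat.beq (Nat.shiftRight l d) l')
    (Nat.beq (Nat.land h' (Nat.shiftRight h d)) h'))
    (Nat.beq (Nat.shiftRight h (Nat.add d q)) (Nat.shiftRight h' q)))
    (Nat.beq (Nat.shiftRight k (Nat.add d q)) (Nat.shiftRight k' q)))
    (Nat.ble q n')) (Nat.sub n n'))
    (Nat.ble n' n)

/-- marker side `(hM, kM, lM, nM)`, other side `(hO, lO, nO)` -/
noncomputable def cmpD (e hM kM lM nM hO lO nO h' k' l' n' q h'' l'' n'' : Nat) : Bool :=
  rb
    (rb false (cmpT hO lO nO h'' l'' n'') (cmpG hM kM lM nM h' k' l' n' q))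
    (rb false (cmpS hO lO nO h'' l'' n'') (cmpR hM kM lM nM h' k' l' n'))
    (Nat.beq e 0)

/-- pointer from a pair; `m` says on which side the marker of the entry `t` is -/
noncomputable def ptM (m c : Bool) (e hM kM lM nM hO lO nO t : Nat) : Bool :=
  rb false (rb false (rb
    (rb false (cmpD e hM kM (cpn c lM nM) nM hO (cpn c lO nO) nO
      (fhx t) (kk e (fhx t) (up t)) (flx t) (fnx t) (uq t) (fhy t) (fly t) (fny t))
      (Nat.beq (uR t) e))
    (rb false (cmpD e hM kM (cpn c lM nM) nM hO (cpn c lO nO) nO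
      (fhy t) (kk e (fhy t) (up t)) (fly t) (fny t) (uq t) (fhx t) (flx t) (fnx t))
      (Nat.beq (uR t) (Nat.sub 1 e)))
    m) (Nat.beq (ue t) e)) (Nat.beq (uD t) 1)

/-- pointer from a pair with the marker on the first side -/
noncomputable def ptA (f e hA kA lA nA hB lB nB t : Nat) : Bool :=
  ptM (Nat.beq (Nat.land f 1) 1) (Nat.ble 2 f) e hA kA lA nA hB lB nB t

/-- pointer from a pair with the marker on the second side -/
noncomputable def ptB (f e hA lA nA hB kB lB nB t : Nat) : Bool :=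
  ptM (Nat.beq (Nat.land f 1) 0) (Nat.ble 2 f) e hB kB lB nB hA lA nA t

/-- an inequality -/
noncomputable def iv (x y w P0 P1 W : Nat) : Bool :=
  Nat.ble (Nat.add (Nat.mul x P0) (Nat.mul y P1)) (Nat.mul w W)

/-- the inequalities for all histories which fit to the first side -/
noncomputable def iqc (x0 y0 w0 x1 y1 w1 n l P0 P1 W : Nat) : Bool :=
  rb
    (rb
      (rb false (rb false (rb false (iv x1 y1 w1 P0 P1 W) (iv x0 y0 w0 P0 P1 W))
        (iv y0 x0 w0 P0 P1 W)) (iv y1 x1 w1 P0 P1 W))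
      (rb (rb false (iv x1 y1 w1 P0 P1 W) (iv x0 y0 w0 P0 P1 W))
        (rb false (iv y1 x1 w1 P0 P1 W) (iv y0 x0 w0 P0 P1 W)) (Nat.beq l 1))
      (Nat.beq n 1))
    ((fun v => rb
      (rb (iv x1 y1 w1 P0 P1 W) (iv x0 y0 w0 P0 P1 W) (Nat.beq (Nat.land v 1) 1))
      (rb (iv y0 x0 w0 P0 P1 W) (iv y1 x1 w1 P0 P1 W) (Nat.beq (Nat.land v 1) 1))
      (Nat.ble 2 v)) (Nat.shiftRight l (Nat.sub n 2)))
    (Nat.ble 2 n)

/-- factor of a value -/
noncomputable def pw (zn zd r W : Nat) : Nat := Nat.mul (Nat.add zd (Nat.mul r (Nat.sub zn zd))) W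

/-- a letter is read, state; `b` is `2 ^ nA` for the letter `1` and `0` for the letter `0` -/
noncomputable def rwP (f b hA lA nA lB nB w r t : Nat) : Bool :=
  ptP f (Nat.add hA (Nat.mul (Nat.pow 2 nA) (Nat.sub 1 r))) (Nat.add lA b) (Nat.succ nA)
    (Nat.sub w (Nat.mul (Nat.pow 2 nB) r)) lB nB t

/-- a letter is read, pair, marker on the first side -/
noncomputable def rwA (f e b hA kA lA nA lB nB w r t : Nat) : Bool :=
  ptA f e (Nat.add hA (Nat.mul (Nat.pow 2 nA) (Nat.sub 1 r)))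
    (Nat.add kA (Nat.mul (Nat.pow 2 nA) (Nat.sub 1 r))) (Nat.add lA b) (Nat.succ nA)
    (Nat.sub w (Nat.mul (Nat.pow 2 nB) r)) lB nB t

/-- a letter is read, pair, marker on the second side -/
noncomputable def rwB (f e b hA lA nA lB nB w v r s t : Nat) : Bool :=
  rb
    (ptA f (Nat.sub (Nat.add e r) s) (Nat.add hA (Nat.mul (Nat.pow 2 nA) (Nat.sub 1 r)))
      (Nat.add hA (Nat.mul (Nat.pow 2 nA) (Nat.sub 1 s))) (Nat.add lA b) (Nat.succ nA)
      (Nat.sub w (Nat.mul (Nat.pow 2 nB) r)) lB nB t)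
    (ptB f e (Nat.add hA (Nat.mul (Nat.pow 2 nA) (Nat.sub 1 r))) (Nat.add lA b) (Nat.succ nA)
      (Nat.sub w (Nat.mul (Nat.pow 2 nB) r)) (Nat.sub v (Nat.mul (Nat.pow 2 nB) s)) lB nB t)
    (Nat.beq r s)

/-- kind 0, state -/
noncomputable def w0P (zn zd x0 y0 w0 x1 y1 w1 : Nat) (g : Nat → Nat) (e : Nat) : Bool :=
  (fun t0 t1 nA nB lB v0 v1 =>
    (fun r0 r1 =>
      rb false (rb false
        (iqc x0 y0 w0 x1 y1 w1 nA (flx e) (pw zn zd r0 (uW t0)) (pw zn zd r1 (uW t1)) (uW e))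
        (rwP (uf1 e) (Nat.pow 2 nA) (fhx e) (flx e) nA lB nB v1 r1 t1))
        (rwP (uf0 e) 0 (fhx e) (flx e) nA lB nB v0 r0 t0))
    (Nat.shiftRight v0 nB) (Nat.shiftRight v1 nB))
  (g (up0 e)) (g (up1 e)) (fnx e) (fny e) (fly e)
  (car (fhy e) (Nat.sub (Nat.sub (Nat.pow 2 (fny e)) 1) (fly e))) (car (fhy e) (fly e))

/-- kind 0, pair, marker on the first side -/
noncomputable def w0A (zn zd x0 y0 w0 x1 y1 w1 : Nat) (g : Nat → Nat) (e : Nat) : Bool :=
  (fun t0 t1 nA nB lB v0 v1 kA =>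
    (fun r0 r1 =>
      rb false (rb false
        (iqc x0 y0 w0 x1 y1 w1 nA (flx e) (pw zn zd r0 (uW t0)) (pw zn zd r1 (uW t1)) (uW e))
        (rwA (uf1 e) (ue e) (Nat.pow 2 nA) (fhx e) kA (flx e) nA lB nB v1 r1 t1))
        (rwA (uf0 e) (ue e) 0 (fhx e) kA (flx e) nA lB nB v0 r0 t0))
    (Nat.shiftRight v0 nB) (Nat.shiftRight v1 nB))
  (g (up0 e)) (g (up1 e)) (fnx e) (fny e) (fly e)
  (car (fhy e) (Nat.sub (Nat.sub (Nat.pow 2 (fny e)) 1) (fly e))) (car (fhy e) (fly e))
  (kk (ue e) (fhx e) (up e))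

/-- kind 0, pair, marker on the second side -/
noncomputable def w0B (zn zd x0 y0 w0 x1 y1 w1 : Nat) (g : Nat → Nat) (e : Nat) : Bool :=
  (fun t0 t1 nA nB lB kB m =>
    (fun v0 v1 u0 u1 =>
      (fun r0 r1 s0 s1 =>
        rb false (rb false
          (iqc x0 y0 w0 x1 y1 w1 nA (flx e) (pw zn zd r0 (uW t0)) (pw zn zd r1 (uW t1)) (uW e))
          (rwB (uf1 e) (ue e) (Nat.pow 2 nA) (fhx e) (flx e) nA lB nB v1 u1 r1 s1 t1))
          (rwB (uf0 e) (ue e) 0 (fhx e) (flx e) nA lB nB v0 u0 r0 s0 t0))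
      (Nat.shiftRight v0 nB) (Nat.shiftRight v1 nB) (Nat.shiftRight u0 nB)
      (Nat.shiftRight u1 nB))
    (car (fhy e) m) (car (fhy e) lB) (car kB m) (car kB lB))
  (g (up0 e)) (g (up1 e)) (fnx e) (fny e) (fly e) (kk (ue e) (fhy e) (up e))
  (Nat.sub (Nat.sub (Nat.pow 2 (fny e)) 1) (fly e))

/-- the mask without its lowest bit -/
noncomputable def lb (h : Nat) : Nat := Nat.land h (Nat.sub h 1)

/-- the pair for the farthest hole of the first side -/
noncomputable def spW (e t : Nat) : Bool :=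
  ptA (uf1 e) 0 (fhx e) (lb (fhx e)) (flx e) (fnx e) (fhy e) (fly e) (fny e) t

/-- kind 1, state -/
noncomputable def w1P (g : Nat → Nat) (e : Nat) : Bool :=
  (fun t0 t1 =>
    rb false (rb false (rb false (rb false (rb false
      (spW e t1)
      (ptP (uf0 e) (lb (fhx e)) (flx e) (fnx e) (fhy e) (fly e) (fny e) t0))
      (Nat.ble 1 (fhx e)))
      (Nat.ble (Nat.succ (ur t0)) (ur e)))
      (Nat.ble (Nat.succ (ur t1)) (ur e)))
      (Nat.ble (Nat.add (uW t0) (uW t1)) (uW e)))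
  (g (up0 e)) (g (up1 e))

/-- kind 1, pair, marker on the first side -/
noncomputable def w1A (g : Nat → Nat) (e : Nat) : Bool :=
  (fun t0 t1 kA q =>
    rb false (rb false (rb false (rb false (rb false (rb false (rb false
      (spW e t1)
      (ptA (uf0 e) 0 (lb (fhx e)) (Nat.sub kA q) (flx e) (fnx e) (fhy e) (fly e) (fny e) t0))
      (Nat.ble 1 (fhx e)))
      (Nat.beq (Nat.land kA q) q))
      (Nat.beq (ue e) 0))
      (Nat.ble (Nat.succ (ur t0)) (ur e)))
      (Nat.ble (Nat.succ (ur t1)) (ur e)))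
      (Nat.ble (Nat.add (uW t0) (uW t1)) (uW e)))
  (g (up0 e)) (g (up1 e)) (Nat.sub (fhx e) (up e)) (Nat.sub (fhx e) (lb (fhx e)))

/-- kind 1, pair, marker on the second side -/
noncomputable def w1B (g : Nat → Nat) (e : Nat) : Bool :=
  (fun t0 t1 =>
    rb false (rb false (rb false (rb false (rb false (rb false
      (spW e t1)
      (ptB (uf0 e) 1 (lb (fhx e)) (flx e) (fnx e) (fhy e) (Nat.add (fhy e) (up e)) (fly e)
        (fny e) t0))
      (Nat.ble 1 (fhx e)))
      (Nat.beq (ue e) 1))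
      (Nat.ble (Nat.succ (ur t0)) (ur e)))
      (Nat.ble (Nat.succ (ur t1)) (ur e)))
      (Nat.ble (Nat.add (uW t0) (uW t1)) (uW e)))
  (g (up0 e)) (g (up1 e))

/-- kind 3, pair -/
noncomputable def w3D (zn zd : Nat) (g : Nat → Nat) (e : Nat) : Bool :=
  (fun t0 q =>
    rb false (rb false (rb false (rb false (rb false (rb false (rb false (rb false
      (ptA (uf0 e) 0 (Nat.add (fhx e) q) (Nat.sub (Nat.add (fhx e) q) 1) (flx e) (fnx e)
        (fhy e) (fly e) (fny e) t0)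
      (Nat.beq (Nat.land (fhx e) 1) 1))
      (Nat.beq (Nat.land (fhx e) q) 0))
      (Nat.ble (Nat.succ (up1 e)) (fnx e)))
      (Nat.beq (uR e) 0))
      (Nat.beq (ue e) 0))
      (Nat.beq (up e) 1))
      (Nat.ble (Nat.succ (ur t0)) (ur e)))
      (Nat.ble (Nat.mul zd (uW t0)) (Nat.mul zn (uW e))))
  (g (up0 e)) (Nat.pow 2 (up1 e))

/-- check of an entry -/
noncomputable def chkW (zn zd x0 y0 w0 x1 y1 w1 : Nat) (g : Nat → Nat) (e : Nat) : Bool :=
  rb false (rb
    (rb (rb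
        (rb (w3D zn zd g e) (k2D zn zd g e) (Nat.beq (uk e) 2))
        (rb (w1B g e) (w1A g e) (Nat.beq (uR e) (ue e)))
        (Nat.beq (uk e) 1))
      (rb (w0B zn zd x0 y0 w0 x1 y1 w1 g e) (w0A zn zd x0 y0 w0 x1 y1 w1 g e)
        (Nat.beq (uR e) (ue e)))
      (Nat.beq (uk e) 0))
    (rb (rb false (w1P g e) (Nat.beq (uk e) 1))
      (w0P zn zd x0 y0 w0 x1 y1 w1 g e) (Nat.beq (uk e) 0))
    (Nat.beq (uD e) 0)) (Nat.ble 1 (uW e))

end Pool.Agent.ad013a
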