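import Pool.Agent.H.MP_ad013a_pr.h63w.WCert

/-!
# Soundness of the checker with weights: the kinds of entries
-/

namespace Pool.Agent.ad013a

open Filter Topology

variable {β : List Bool → Bool → ℝ}

/-- the table -/
def UTW (g : ℕ → ℕ) (i : ℕ) (s : US) (W : ℝ) : Prop :=
  ∃ j, ur (g j) = i ∧ EncW (g j) s ∧ W = (uW (g j) : ℝ)

/-- what `CertW` says for an entry -/
def AltW (β : List Bool → Bool → ℝ) (z Λ : ℝ) (T : ℕ → US → ℝ → Prop) (i : ℕ) (s : US)
    (W : ℝ) : Prop :=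
  (∃ s0 s1 W0 W1, US.Stp false s s0 ∧ US.Stp true s s1 ∧ US.Pw β z T (fun _ => True) s0 W0 ∧
      US.Pw β z T (fun _ => True) s1 W1 ∧ ∀ h, Hs h s.fsd →
      1 / 2 * (β h false * (z ^ (pass false s.sec).2.toNat * W0)) +
        1 / 2 * (β h true * (z ^ (pass true s.sec).2.toNat * W1)) ≤ Λ * W) ∨
   (∃ c1 c2 s1 s2 W1 W2, 0 ≤ c1 ∧ 0 ≤ c2 ∧
      (∀ X Y, s.val z X Y ≤ c1 * s1.val z X Y + c2 * s2.val z X Y) ∧
      (lets s1.fsd <+: lets s.fsd ∧ lets s1.sec <+: lets s.sec) ∧
      (lets s2.fsd <+: lets s.fsd ∧ lets s2.sec <+: lets s.sec) ∧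
      US.Pw β z T (fun j => j < i) s1 W1 ∧ US.Pw β z T (fun j => j < i) s2 W2 ∧
      c1 * W1 + c2 * W2 ≤ W)

theorem mkPw {z : ℝ} {g : ℕ → ℕ} {P : ℕ → Prop} {j : ℕ} {s : US} (hP : P (ur (g j)))
    (h : ∃ s' : US, EncW (g j) s' ∧ s'.good ∧ ∀ n c, US.Bw β z s' n c → US.Bw β z s n c) :
    US.Pw β z (UTW g) P s (uW (g j)) := by
  obtain ⟨s', h1, h2, h3⟩ := h
  exact ⟨ur (g j), s', hP, ⟨j, rfl, h1, rfl⟩, h2, h3⟩

theorem Dp_ee {e : Bool} {x y x' y' : List Site} (h : Dp e e x y x' y') : y' = y := by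
  cases e
  · exact h.2.symm
  · exact h.2.symm

theorem Dp_ne {e : Bool} {x y x' y' : List Site} (h : Dp (!e) e x y x' y') : x' = x := by
  cases e
  · exact h.1.symm
  · exact h.1.symm

section

variable {zn zd Ld Ln m0 k0 m1 k1 x0 y0 w0 x1 y1 w1 : ℕ} {g : ℕ → ℕ} {e : ℕ} {x y : List Site}

theorem Cst.wts (hc : Cst zn zd Ld Ln m0 k0 m1 k1 x0 y0 w0 x1 y1 w1) :
    Wts (bw m0 k0 m1 k1) := bw_Wts hc.hm0 hc.hk0 hc.hm1 hc.hk1

theorem Cst.z1 (hc : Cst zn zd Ld Ln m0 k0 m1 k1 x0 y0 w0 x1 y1 w1) : 1 ≤ (zn : ℝ) / zd := by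
  rw [one_le_div (by exact_mod_cast hc.hzd)]
  exact_mod_cast hc.hz.le

theorem w0P_sound (hc : Cst zn zd Ld Ln m0 k0 m1 k1 x0 y0 w0 x1 y1 w1) (hE : Enc e x y)
    (H : w0P zn zd x0 y0 w0 x1 y1 w1 g e = true) (i : ℕ) :
    AltW (bw m0 k0 m1 k1) ((zn : ℝ) / zd) ((Ln : ℝ) / Ld) (UTW g) i (US.psi x y) (uW e) := by
  obtain ⟨⟨h1, h2, h3⟩, ⟨h4, h5, h6⟩⟩ := hE
  have v0 := car_false (y := y) rfl rfl h4 h5 h6
  have v1 := car_true (y := y) rfl h4 h5
  have r0 : Nat.shiftRight (car (fhy e) (Nat.sub (Nat.sub (Nat.pow 2 (fny e)) 1) (fly e))) (fny e)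
      = (pass false y).2.toNat := by
    rw [v0, h6, car_div]
  have r1 : Nat.shiftRight (car (fhy e) (fly e)) (fny e) = (pass true y).2.toNat := by
    rw [v1, h6, car_div]
  unfold w0P at H
  simp only at H
  rw [rb_and, rb_and] at H
  obtain ⟨H0, H1, HI⟩ := H
  rw [h2, h3] at HI
  have I := iqc_sound hc r0 r1 HI
  rw [h1, h2, h3, h5, h6] at H0 H1
  rw [h4, h5, h6] at v0
  rw [h4, h5] at v1
  rw [h4, h5, h6] at r0
  rw [h4, h5, h6] at r1
  rw [h4] at H0 H1
  have K0 := rwP_sound hc.wts ((zn : ℝ) / zd) (a := false) (x := x) (y := y) (by simp) v0 r0 H0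
  have K1 := rwP_sound hc.wts ((zn : ℝ) / zd) (a := true) (x := x) (y := y)
    (by simp) v1 r1 H1
  exact Or.inl ⟨_, _, _, _, rfl, rfl, mkPw trivial K0, mkPw trivial K1, I⟩

theorem w0A_sound (hc : Cst zn zd Ld Ln m0 k0 m1 k1 x0 y0 w0 x1 y1 w1) {ee : Bool}
    {x' : List Site} (hgood : Dp ee ee x y x' y) (hee : ue e = ee.toNat) (hE : Enc e x y)
    (hA : kk ee.toNat (fhx e) (up e) = eh x'.reverse)
    (H : w0A zn zd x0 y0 w0 x1 y1 w1 g e = true) (i : ℕ) :
    AltW (bw m0 k0 m1 k1) ((zn : ℝ) / zd) ((Ln : ℝ) / Ld) (UTW g) i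
      (US.dif ee ee x y x' y) (uW e) := by
  obtain ⟨⟨h1, h2, h3⟩, ⟨h4, h5, h6⟩⟩ := hE
  have v0 := car_false (y := y) rfl rfl h4 h5 h6
  have v1 := car_true (y := y) rfl h4 h5
  have r0 : Nat.shiftRight (car (fhy e) (Nat.sub (Nat.sub (Nat.pow 2 (fny e)) 1) (fly e))) (fny e)
      = (pass false y).2.toNat := by
    rw [v0, h6, car_div]
  have r1 : Nat.shiftRight (car (fhy e) (fly e)) (fny e) = (pass true y).2.toNat := by
    rw [v1, h6, car_div]
  unfold w0A at H
  simp only at H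
  rw [rb_and, rb_and] at H
  obtain ⟨H0, H1, HI⟩ := H
  rw [h2, h3] at HI
  have I := iqc_sound hc r0 r1 HI
  rw [hee, hA, h1, h2, h3, h4, h5, h6] at H0 H1
  rw [h4, h5, h6] at v0 r0
  rw [h4, h5] at v1
  rw [h4, h5, h6] at r1
  obtain ⟨s0, S0, K0⟩ := rwA_sound hc.wts hc.z1 (a := false) hgood (by simp) v0 r0 H0
  obtain ⟨s1, S1, K1⟩ := rwA_sound hc.wts hc.z1 (a := true) hgood (by simp) v1 r1 H1
  exact Or.inl ⟨_, _, _, _, S0, S1, mkPw trivial K0, mkPw trivial K1, I⟩

theorem w0B_sound (hc : Cst zn zd Ld Ln m0 k0 m1 k1 x0 y0 w0 x1 y1 w1) {ee : Bool}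
    {y' : List Site} (hgood : Dp (!ee) ee x y x y') (hee : ue e = ee.toNat) (hE : Enc e x y)
    (hB : kk ee.toNat (fhy e) (up e) = eh y'.reverse)
    (H : w0B zn zd x0 y0 w0 x1 y1 w1 g e = true) (i : ℕ) :
    AltW (bw m0 k0 m1 k1) ((zn : ℝ) / zd) ((Ln : ℝ) / Ld) (UTW g) i
      (US.dif (!ee) ee x y x y') (uW e) := by
  obtain ⟨⟨h1, h2, h3⟩, ⟨h4, h5, h6⟩⟩ := hE
  have ly : y'.length = y.length := (Dp_length hgood).2
  have ey : el y'.reverse = el y.reverse := (Dp_el hgood).2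
  have v0 := car_false (y := y) rfl rfl h4 h5 h6
  have v1 := car_true (y := y) rfl h4 h5
  have u0 := car_false ly ey hB h5 h6
  have u1 := car_true ey hB h5
  have r0 : Nat.shiftRight (car (fhy e) (Nat.sub (Nat.sub (Nat.pow 2 (fny e)) 1) (fly e))) (fny e)
      = (pass false y).2.toNat := by
    rw [v0, h6, car_div]
  have r1 : Nat.shiftRight (car (fhy e) (fly e)) (fny e) = (pass true y).2.toNat := by
    rw [v1, h6, car_div]
  have s0 : Nat.shiftRight (car (kk ee.toNat (fhy e) (up e))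
      (Nat.sub (Nat.sub (Nat.pow 2 (fny e)) 1) (fly e))) (fny e) = (pass false y').2.toNat := by
    rw [u0, h6, ← ly, car_div]
  have s1 : Nat.shiftRight (car (kk ee.toNat (fhy e) (up e)) (fly e)) (fny e) =
      (pass true y').2.toNat := by
    rw [u1, h6, ← ly, car_div]
  unfold w0B at H
  simp only at H
  rw [hee] at H
  rw [rb_and, rb_and] at H
  obtain ⟨H0, H1, HI⟩ := H
  rw [h2, h3] at HI
  have I := iqc_sound hc r0 r1 HI
  rw [hB, h1, h2, h3, h4, h5, h6] at H0 H1
  rw [h4, h5, h6] at v0 r0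
  rw [h4, h5] at v1
  rw [h4, h5, h6] at r1
  rw [hB, h5, h6] at u0 s0
  rw [hB, h5] at u1
  rw [hB, h5, h6] at s1
  obtain ⟨t0, S0, K0⟩ := rwB_sound hc.wts hc.z1 (a := false) hgood (by simp) v0 r0 u0 s0 H0
  obtain ⟨t1, S1, K1⟩ := rwB_sound hc.wts hc.z1 (a := true) hgood (by simp) v1 r1 u1 s1 H1
  exact Or.inl ⟨_, _, _, _, S0, S1, mkPw trivial K0, mkPw trivial K1, I⟩

/-! ### splitting -/

theorem Rel1.reverse {f f' : List Site} (h : Rel1 f f') : Rel1 f.reverse f'.reverse := by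
  induction h with
  | here c t =>
    rw [List.reverse_cons, List.reverse_cons]
    exact Rel1.far _ _
  | there r _ ih =>
    rw [List.reverse_cons, List.reverse_cons]
    exact ih.append _

theorem lb_odd (m : ℕ) : lb (2 * m + 1) = 2 * m := by
  change (2 * m + 1) &&& (2 * m + 1 - 1) = 2 * m
  have e1 : 2 * m + 1 = Nat.bit true m := by rw [Nat.bit_val]; rfl
  have e2 : 2 * m + 1 - 1 = Nat.bit false m := by rw [Nat.bit_val]; simp
  rw [e2, e1, Nat.land_bit, Nat.and_self, Nat.bit_val]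
  simp

theorem lb_even {m : ℕ} (hm : 0 < m) : lb (2 * m) = 2 * lb m := by
  change (2 * m) &&& (2 * m - 1) = 2 * (m &&& (m - 1))
  have e1 : 2 * m = Nat.bit false m := by rw [Nat.bit_val]; simp
  have e2 : 2 * m - 1 = Nat.bit true (m - 1) := by rw [Nat.bit_val]; simp; omega
  rw [e2]
  nth_rw 1 [e1]
  rw [Nat.land_bit, Nat.bit_val]
  simp

theorem lb_le (h : ℕ) : lb h ≤ h := Nat.and_le_left

/-- the first hole is turned into a particle; far first -/
theorem low_ex (f : List Site) (hf : 0 < eh f) :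
    ∃ g, Rel1 f g ∧ eh g = lb (eh f) ∧ lets g = lets f := by
  induction f with
  | nil => simp [eh] at hf
  | cons s f ih =>
    obtain ⟨p, c⟩ := s
    cases p
    · refine ⟨(true, c) :: f, Rel1.here c f, ?_, rfl⟩
      have e1 : eh ((false, c) :: f) = 2 * eh f + 1 := by rw [eh, Nat.bit_val]; rfl
      have e2 : eh ((true, c) :: f) = 2 * eh f := by rw [eh, Nat.bit_val]; simp
      rw [e1, e2, lb_odd]
    · have e1 : eh ((true, c) :: f) = 2 * eh f := by rw [eh, Nat.bit_val]; simp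
      rw [e1] at hf
      obtain ⟨g, g1, g2, g3⟩ := ih (by omega)
      refine ⟨(true, c) :: g, Rel1.there _ g1, ?_, ?_⟩
      · have e2 : eh ((true, c) :: g) = 2 * eh g := by rw [eh, Nat.bit_val]; simp
        rw [e1, e2, lb_even (by omega), g2]
      · simp only [lets, List.map_cons] at g3 ⊢
        rw [g3]

theorem and_two_mul (a b : ℕ) : (2 * a) &&& (2 * b) = 2 * (a &&& b) := by
  have e1 : 2 * a = Nat.bit false a := by rw [Nat.bit_val]; simp
  have e2 : 2 * b = Nat.bit false b := by rw [Nat.bit_val]; simp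
  rw [e1, e2, Nat.land_bit, Nat.bit_val]
  simp

/-- the same in a pair; far first -/
theorem low_ex2 {f f' : List Site} (h : Rel1 f f')
    (hq : eh f' &&& (eh f - lb (eh f)) = eh f - lb (eh f)) :
    ∃ g g', Rel1 f g ∧ Rel1 f' g' ∧ Rel1 g g' ∧ eh g = lb (eh f) ∧
      eh g' = eh f' - (eh f - lb (eh f)) ∧ lets g = lets f ∧ lets g' = lets f := by
  induction h with
  | here c t =>
    exfalso
    have e1 : eh ((false, c) :: t) = 2 * eh t + 1 := by rw [eh, Nat.bit_val]; rfl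
    have e2 : eh ((true, c) :: t) = 2 * eh t := by rw [eh, Nat.bit_val]; simp
    rw [e1, e2, lb_odd, show 2 * eh t + 1 - 2 * eh t = 1 by omega, Nat.and_one_is_mod] at hq
    omega
  | @there r t t' h ih =>
    obtain ⟨p, c⟩ := r
    cases p
    · refine ⟨(true, c) :: t, (true, c) :: t', Rel1.here c t, Rel1.here c t',
        Rel1.there _ h, ?_, ?_, rfl, ?_⟩
      · have e1 : eh ((false, c) :: t) = 2 * eh t + 1 := by rw [eh, Nat.bit_val]; rfl
        have e2 : eh ((true, c) :: t) = 2 * eh t := by rw [eh, Nat.bit_val]; simp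
        rw [e1, e2, lb_odd]
      · have e1 : eh ((false, c) :: t) = 2 * eh t + 1 := by rw [eh, Nat.bit_val]; rfl
        have e2 : eh ((true, c) :: t') = 2 * eh t' := by rw [eh, Nat.bit_val]; simp
        have e3 : eh ((false, c) :: t') = 2 * eh t' + 1 := by rw [eh, Nat.bit_val]; rfl
        rw [e1, e2, e3, lb_odd]
        omega
      · have : lets t' = lets t := by
          clear ih hq
          induction h with
          | here c t => rfl
          | there r _ ih =>
            simp only [lets, List.map_cons] at ih ⊢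
            rw [ih]
        simp only [lets, List.map_cons] at this ⊢
        rw [this]
    · have e1 : eh ((true, c) :: t) = 2 * eh t := by rw [eh, Nat.bit_val]; simp
      have e2 : eh ((true, c) :: t') = 2 * eh t' := by rw [eh, Nat.bit_val]; simp
      have hpos : 0 < eh t := by
        rcases Nat.eq_zero_or_pos (eh t) with h0 | h0
        · obtain ⟨r, hr, hr'⟩ := h.ex_hole
          have := eh_zero h0 r hr
          rw [hr'] at this
          cases this
        · exact h0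
      have hsub : 2 * eh t - 2 * lb (eh t) = 2 * (eh t - lb (eh t)) := by omega
      rw [e1, e2, lb_even hpos, hsub, and_two_mul] at hq
      obtain ⟨g, g', g1, g2, g3, g4, g5, g6, g7⟩ := ih (by omega)
      refine ⟨(true, c) :: g, (true, c) :: g', Rel1.there _ g1, Rel1.there _ g2,
        Rel1.there _ g3, ?_, ?_, ?_, ?_⟩
      · have e3 : eh ((true, c) :: g) = 2 * eh g := by rw [eh, Nat.bit_val]; simp
        rw [e1, e3, lb_even hpos, g4]
      · have e3 : eh ((true, c) :: g') = 2 * eh g' := by rw [eh, Nat.bit_val]; simp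
        rw [e1, e2, e3, lb_even hpos, g5]
        omega
      · simp only [lets, List.map_cons] at g6 ⊢
        rw [g6]
      · simp only [lets, List.map_cons] at g7 ⊢
        rw [g7]

theorem el_of_lets {f g : List Site} (h : lets g = lets f) : el g = el f := by
  induction f generalizing g with
  | nil =>
    cases g with
    | nil => rfl
    | cons s g => simp [lets] at h
  | cons r f ih =>
    cases g with
    | nil => simp [lets] at h
    | cons s g =>
      simp only [lets, List.map_cons, List.cons.injEq] at h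
      rw [el, el, h.1, ih h.2]

theorem lets_rev (f : List Site) : lets f.reverse = (lets f).reverse := by
  simp [lets, List.map_reverse]

theorem len_of_lets {f g : List Site} (h : lets g = lets f) : g.length = f.length := by
  have := congrArg List.length h
  simpa [lets] using this

/-- the farthest hole of a side is turned into a particle -/
theorem low_side {x : List Site} (hx : 0 < eh x.reverse) :
    ∃ u, Rel1 x u ∧ eh u.reverse = lb (eh x.reverse) ∧ lets u = lets x := by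
  obtain ⟨g, g1, g2, g3⟩ := low_ex _ hx
  refine ⟨g.reverse, ?_, ?_, ?_⟩
  · have := g1.reverse
    rwa [List.reverse_reverse] at this
  · rw [List.reverse_reverse, g2]
  · rw [lets_rev, g3, lets_rev, List.reverse_reverse]

theorem spW_sound (hβ : Wts β) {z : ℝ} (hz : 1 ≤ z) {x u y : List Site} {e t1 : ℕ}
    (hE : Enc e x y) (hu : Rel1 x u) (hu2 : eh u.reverse = lb (eh x.reverse))
    (H : spW e t1 = true) :
    ∃ s' : US, EncW t1 s' ∧ s'.good ∧ ∀ n k, US.Bw β z s' n k →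
      US.Bw β z (US.dif false false x y u y) n k := by
  obtain ⟨⟨h1, h2, h3⟩, ⟨h4, h5, h6⟩⟩ := hE
  unfold spW at H
  rw [h1, h2, h3, h4, h5, h6, ← hu2] at H
  exact ptA_sound (e := false) hβ hz ⟨hu, rfl⟩ H

theorem w1P_sound (hβ : Wts β) {z Λ : ℝ} (hz : 1 ≤ z) (hE : Enc e x y)
    (H : w1P g e = true) :
    AltW β z Λ (UTW g) (ur e) (US.psi x y) (uW e) := by
  unfold w1P at H
  simp only at H
  rw [rb_and, rb_and, rb_and, rb_and, rb_and] at H
  obtain ⟨HW, H1, H0, Hh, HP, HS⟩ := H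
  rw [Nat_ble_eq] at HW H1 H0 Hh
  obtain ⟨⟨h1, h2, h3⟩, ⟨h4, h5, h6⟩⟩ := id hE
  rw [h1] at Hh
  obtain ⟨u, u1, u2, u3⟩ := low_side Hh
  have K1 := spW_sound hβ hz hE u1 u2 HS
  have e2 : el x.reverse = el u.reverse := u1.el_eq.symm
  rw [h1, h2, h3, h4, h5, h6, ← u2, e2, ← u1.length_eq] at HP
  have K0 := ptP_soundW hβ z HP
  refine Or.inr ⟨1, 1, US.psi u y, US.dif false false x y u y, _, _, by norm_num, by norm_num,
    ?_, ⟨?_, ?_⟩, ⟨List.prefix_rfl, List.prefix_rfl⟩,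
    mkPw (P := fun j => j < ur e) H0 K0, mkPw (P := fun j => j < ur e) H1 K1, ?_⟩
  · intro X Y
    rw [one_mul, one_mul]
    simp only [US.val, vD, Bool.toNat_false, Nat.cast_zero, sub_zero]
    linarith
  · change lets u <+: lets x
    rw [u3]
  · exact List.prefix_rfl
  · rw [one_mul, one_mul]
    exact_mod_cast HW

theorem w1A_sound (hβ : Wts β) {z Λ : ℝ} (hz : 1 ≤ z) {x' : List Site}
    (hgood : Rel1 x x') (hE : Enc e x y) (hA : fhx e - up e = eh x'.reverse)
    (H : w1A g e = true) :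
    AltW β z Λ (UTW g) (ur e) (US.dif false false x y x' y) (uW e) := by
  unfold w1A at H
  simp only at H
  rw [rb_and, rb_and, rb_and, rb_and, rb_and, rb_and, rb_and] at H
  obtain ⟨HW, H1, H0, He, Hq, Hh, HP, HS⟩ := H
  rw [Nat_ble_eq] at HW H1 H0 Hh
  rw [Nat_beq_eq] at Hq
  obtain ⟨⟨h1, h2, h3⟩, ⟨h4, h5, h6⟩⟩ := id hE
  have hA' : Nat.sub (fhx e) (up e) = eh x'.reverse := hA
  rw [hA'] at Hq HP
  rw [h1] at Hq
  obtain ⟨v, v', v1, v2, v3, v4, v5, v6, v7⟩ := low_ex2 hgood.reverse Hq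
  have w1 : Rel1 x v.reverse := by
    have := v1.reverse
    rwa [List.reverse_reverse] at this
  have w2 : Rel1 x' v'.reverse := by
    have := v2.reverse
    rwa [List.reverse_reverse] at this
  have w3 : Rel1 v.reverse v'.reverse := v3.reverse
  have w4 : eh v.reverse.reverse = lb (eh x.reverse) := by rw [List.reverse_reverse, v4]
  have w5 : lets v.reverse = lets x := by
    rw [lets_rev, v6, lets_rev, List.reverse_reverse]
  have K1 := spW_sound hβ hz hE w1 w4 HS
  have e1 : Nat.sub (eh x'.reverse) (Nat.sub (fhx e) (lb (fhx e))) =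
      eh v'.reverse.reverse := by
    rw [List.reverse_reverse, v5, h1]; rfl
  rw [e1, h1, h2, h3, h4, h5, h6, ← w4, ← w1.el_eq, ← w1.length_eq] at HP
  have K0 := ptA_sound (e := false) hβ hz ⟨w3, rfl⟩ HP
  refine Or.inr ⟨1, 1, US.dif false false v.reverse y v'.reverse y,
    US.dif false false x y v.reverse y, _, _, by norm_num, by norm_num,
    ?_, ⟨?_, List.prefix_rfl⟩, ⟨List.prefix_rfl, List.prefix_rfl⟩,
    mkPw (P := fun j => j < ur e) H0 K0, mkPw (P := fun j => j < ur e) H1 K1, ?_⟩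
  · intro X Y
    rw [one_mul, one_mul]
    have k1 : FF v'.reverse y X Y ≤ FF x' y X Y := by
      have := (w2.FX_le X Y).1
      unfold FF
      omega
    have k2 := zpow_le_zpow_right₀ hz k1
    simp only [US.val, vD, Bool.toNat_false, Nat.cast_zero, sub_zero]
    linarith
  · change lets v.reverse <+: lets x
    rw [w5]
  · rw [one_mul, one_mul]
    exact_mod_cast HW

theorem w1B_sound (hβ : Wts β) {z Λ : ℝ} (hz : 1 ≤ z) {y' : List Site}
    (hgood : Rel1 y' y) (hE : Enc e x y) (hB : fhy e + up e = eh y'.reverse)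
    (H : w1B g e = true) :
    AltW β z Λ (UTW g) (ur e) (US.dif false true x y x y') (uW e) := by
  unfold w1B at H
  simp only at H
  rw [rb_and, rb_and, rb_and, rb_and, rb_and, rb_and] at H
  obtain ⟨HW, H1, H0, He, Hh, HP, HS⟩ := H
  rw [Nat_ble_eq] at HW H1 H0 Hh
  obtain ⟨⟨h1, h2, h3⟩, ⟨h4, h5, h6⟩⟩ := id hE
  rw [h1] at Hh
  obtain ⟨u, u1, u2, u3⟩ := low_side Hh
  have K1 := spW_sound hβ hz hE u1 u2 HS
  have hB' : Nat.add (fhy e) (up e) = eh y'.reverse := hB
  rw [hB', h1, h2, h3, h4, h5, h6, ← u2, ← u1.el_eq, ← u1.length_eq] at HP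
  have K0 := ptB_sound (e := true) hβ hz ⟨rfl, hgood⟩ HP
  refine Or.inr ⟨1, 1, US.dif false true u y u y', US.dif false false x y u y, _, _,
    by norm_num, by norm_num,
    ?_, ⟨?_, List.prefix_rfl⟩, ⟨List.prefix_rfl, List.prefix_rfl⟩,
    mkPw (P := fun j => j < ur e) H0 K0, mkPw (P := fun j => j < ur e) H1 K1, ?_⟩
  · intro X Y
    rw [one_mul, one_mul]
    have k1 : FF u y' X Y - 1 ≤ FF x y' X Y - 1 := by
      have := (u1.FX_le X Y).1
      unfold FF
      omega
    have k2 := zpow_le_zpow_right₀ hz k1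
    simp only [US.val, vD, Bool.toNat_false, Bool.toNat_true, Nat.cast_one, Nat.cast_zero,
      sub_zero]
    linarith
  · change lets u <+: lets x
    rw [u3]
  · rw [one_mul, one_mul]
    exact_mod_cast HW

end

end Pool.Agent.ad013a
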