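import Pool.Agent.H.MP_ad013a_pr.h63w.Weights

/-!
# The upper bound theorem with weights
-/

namespace Pool.Agent.ad013a

open Finset Filter Topology

variable {β : List Bool → Bool → ℝ}

/-- the letters of a side -/
def lets (x : List Site) : List Bool := x.map Prod.snd

theorem lets_pass (a : Bool) (x : List Site) : lets (pass a x).1 = lets x := by
  induction x with
  | nil => rfl
  | cons s t ih =>
    have e : ∀ v, ((stp a v s).1).2 = s.2 := by
      intro v
      unfold stp
      split <;> split <;> rfl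
    simp only [pass, lets, List.map_cons, e]
    simp only [lets] at ih
    rw [ih]

theorem lets_flp (x : List Site) : lets (flp x) = (lets x).map not := by
  simp [lets, flp]

theorem lets_nx (a : Bool) (x y : List Site) : lets (nx a x y) = a :: lets x := rfl

theorem lets_ny (a : Bool) (y : List Site) : lets (ny a y) = lets y := lets_pass a y

/-- the history `h` fits to the side `x` -/
def Hs (h : List Bool) (x : List Site) : Prop := 2 ≤ h.length ∧ lets x <+: h

theorem Hs_nx {h : List Bool} {x : List Site} (a : Bool) (y : List Site) (H : Hs h x) :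
    Hs (a :: h) (nx a x y) := by
  refine ⟨by have := H.1; simp only [List.length_cons]; omega, ?_⟩
  rw [lets_nx]
  exact (List.prefix_cons_inj a).2 H.2

theorem Hs_ny {h : List Bool} {y : List Site} (a : Bool) (H : Hs h y) : Hs h (ny a y) := by
  refine ⟨H.1, ?_⟩
  rw [lets_ny]
  exact H.2

theorem Hs_flp {h : List Bool} {x : List Site} (H : Hs h x) : Hs (h.map not) (flp x) := by
  refine ⟨by rw [List.length_map]; exact H.1, ?_⟩
  rw [lets_flp]
  exact H.2.map not

theorem Hs_mono {h : List Bool} {x y : List Site} (hxy : lets y <+: lets x) (H : Hs h x) :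
    Hs h y := ⟨H.1, hxy.trans H.2⟩

namespace US

/-- first side -/
def fsd : US → List Site
  | psi x _ => x
  | dif _ _ x _ _ _ => x

/-- expectation of the value -/
noncomputable def Mw (β : List Bool → Bool → ℝ) (z : ℝ) (s : US) (h k : List Bool)
    (a b : ℕ) : ℝ :=
  Ew β a h (fun X => Ew β b k (fun Y => s.val z X Y))

theorem Mw_swap (β : List Bool → Bool → ℝ) (z : ℝ) (s : US) (h k : List Bool) (a b : ℕ) :
    (swap s).Mw β z k h b a = s.Mw β z h k a b := by
  unfold Mw
  rw [Ew_comm]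
  simp only [swap_val]

theorem Mw_cpl (hβ : Wts β) (z : ℝ) (s : US) (h k : List Bool) (a b : ℕ) :
    (cpl s).Mw β z (h.map not) (k.map not) a b = s.Mw β z h k a b := by
  have nn : ∀ w : List Bool, (w.map not).map not = w := by
    intro w
    simp [List.map_map, Function.comp_def]
  have e1 : ∀ X : List Bool, Ew β b (k.map not) (fun Y => (cpl s).val z X Y) =
      Ew β b k (fun Y => s.val z (X.map not) Y) := by
    intro X
    rw [← Ew_not hβ b k]
    refine Ew_congr _ _ _ (fun Y => ?_)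
    have := cpl_val z s (X.map not) (Y.map not)
    rw [nn, nn] at this
    exact this
  unfold Mw
  rw [Ew_congr _ _ _ e1, ← Ew_not hβ a h]

theorem Mw_mono (hβ : Wts β) {z : ℝ} {s t : US} (hst : ∀ X Y, s.val z X Y ≤ t.val z X Y)
    (h k : List Bool) (a b : ℕ) : s.Mw β z h k a b ≤ t.Mw β z h k a b :=
  Ew_mono hβ _ _ (fun X => Ew_mono hβ _ _ (fun Y => hst X Y))

theorem Mw_le_two (hβ : Wts β) {z c1 c2 : ℝ} {s s1 s2 : US}
    (hs : ∀ X Y, s.val z X Y ≤ c1 * s1.val z X Y + c2 * s2.val z X Y) (h k : List Bool)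
    (a b : ℕ) : s.Mw β z h k a b ≤ c1 * s1.Mw β z h k a b + c2 * s2.Mw β z h k a b := by
  have e : c1 * s1.Mw β z h k a b + c2 * s2.Mw β z h k a b = Ew β a h (fun X => Ew β b k
      (fun Y => c1 * s1.val z X Y + c2 * s2.val z X Y)) := by
    unfold Mw
    rw [← Ew_lin]
    refine Ew_congr _ _ _ (fun X => ?_)
    rw [← Ew_lin]
  rw [e]
  exact Ew_mono hβ _ _ (fun X => Ew_mono hβ _ _ (fun Y => hs X Y))

/-- bound for the expectations of the value, `n` letters remaining -/
def Bw (β : List Bool → Bool → ℝ) (z : ℝ) (s : US) (n : ℕ) (c : ℝ) : Prop :=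
  ∀ (a b : ℕ) (h k : List Bool), a + b = n → Hs h s.fsd → Hs k s.sec →
    s.Mw β z h k a b ≤ c

theorem swap_fsd (s : US) : (swap s).fsd = s.sec := by cases s <;> rfl

theorem swap_sec (s : US) : (swap s).sec = s.fsd := by cases s <;> rfl

theorem cpl_fsd (s : US) : (cpl s).fsd = flp s.fsd := by cases s <;> rfl

theorem cpl_sec (s : US) : (cpl s).sec = flp s.sec := by cases s <;> rfl

theorem Bw_swap {z : ℝ} {s : US} {n : ℕ} {c : ℝ} (h : Bw β z (swap s) n c) : Bw β z s n c := by
  intro a b u v hab hu hv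
  rw [← Mw_swap]
  exact h b a v u (by omega) (by rw [swap_fsd]; exact hv) (by rw [swap_sec]; exact hu)

theorem Bw_cpl (hβ : Wts β) {z : ℝ} {s : US} {n : ℕ} {c : ℝ} (h : Bw β z (cpl s) n c) :
    Bw β z s n c := by
  intro a b u v hab hu hv
  rw [← Mw_cpl hβ]
  exact h a b _ _ hab (by rw [cpl_fsd]; exact Hs_flp hu) (by rw [cpl_sec]; exact Hs_flp hv)

theorem Bw_mono (hβ : Wts β) {z : ℝ} {s t : US} (hst : ∀ X Y, s.val z X Y ≤ t.val z X Y)
    (h1 : lets t.fsd <+: lets s.fsd) (h2 : lets t.sec <+: lets s.sec) {n : ℕ} {c : ℝ}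
    (h : Bw β z t n c) : Bw β z s n c :=
  fun a b u v hab hu hv => (Mw_mono hβ hst u v a b).trans
    (h a b u v hab (Hs_mono h1 hu) (Hs_mono h2 hv))

theorem Mw_succ {z : ℝ} (hz : z ≠ 0) {s s0 s1 : US} (h0 : Stp false s s0) (h1 : Stp true s s1)
    (h k : List Bool) (a b : ℕ) : s.Mw β z h k (a + 1) b =
      1 / 2 * (β h false * (z ^ (pass false s.sec).2.toNat * s0.Mw β z (false :: h) k a b)) +
      1 / 2 * (β h true * (z ^ (pass true s.sec).2.toNat * s1.Mw β z (true :: h) k a b)) := by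
  have key : ∀ (x : Bool) (s' : US), Stp x s s' →
      Ew β a (x :: h) (fun X => Ew β b k (fun Y => s.val z (x :: X) Y)) =
      z ^ (pass x s.sec).2.toNat * s'.Mw β z (x :: h) k a b := by
    intro x s' hs
    unfold Mw
    rw [← Ew_smul]
    refine Ew_congr _ _ _ (fun X => ?_)
    rw [← Ew_smul]
    exact Ew_congr _ _ _ (fun Y => Stp_val hz hs X Y)
  rw [Mw, Ew, key false s0 h0, key true s1 h1]

theorem Stp_fsd {x : Bool} {s s' : US} (hs : Stp x s s') : lets s'.fsd = x :: lets s.fsd := by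
  cases s with
  | psi x' y => rw [show s' = _ from hs]; rfl
  | dif R e x1 y1 x2 y2 =>
    obtain ⟨e', rfl, -⟩ := hs
    rfl

theorem Stp_sec {x : Bool} {s s' : US} (hs : Stp x s s') : lets s'.sec = lets s.sec := by
  cases s with
  | psi x' y =>
    rw [show s' = _ from hs]
    exact lets_ny x y
  | dif R e x1 y1 x2 y2 =>
    obtain ⟨e', rfl, -⟩ := hs
    exact lets_ny x y1

/-- a bound of the value of `s` through an entry of the table whose index satisfies `P` -/
def Pw (β : List Bool → Bool → ℝ) (z : ℝ) (T : ℕ → US → ℝ → Prop) (P : ℕ → Prop) (s : US)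
    (W : ℝ) : Prop :=
  ∃ j t, P j ∧ T j t W ∧ t.good ∧ ∀ n c, Bw β z t n c → Bw β z s n c

/-- what the table has to satisfy -/
def CertW (β : List Bool → Bool → ℝ) (z Λ w0 : ℝ) (T : ℕ → US → ℝ → Prop) : Prop :=
  ∀ i s W, T i s W → s.good → w0 ≤ W ∧ s.len ≤ 15 ∧
    ((∃ s0 s1 W0 W1, Stp false s s0 ∧ Stp true s s1 ∧ Pw β z T (fun _ => True) s0 W0 ∧
        Pw β z T (fun _ => True) s1 W1 ∧ ∀ h, Hs h s.fsd →
        1 / 2 * (β h false * (z ^ (pass false s.sec).2.toNat * W0)) +
          1 / 2 * (β h true * (z ^ (pass true s.sec).2.toNat * W1)) ≤ Λ * W) ∨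
     (∃ c1 c2 s1 s2 W1 W2, 0 ≤ c1 ∧ 0 ≤ c2 ∧
        (∀ X Y, s.val z X Y ≤ c1 * s1.val z X Y + c2 * s2.val z X Y) ∧
        (lets s1.fsd <+: lets s.fsd ∧ lets s1.sec <+: lets s.sec) ∧
        (lets s2.fsd <+: lets s.fsd ∧ lets s2.sec <+: lets s.sec) ∧
        Pw β z T (fun j => j < i) s1 W1 ∧ Pw β z T (fun j => j < i) s2 W2 ∧
        c1 * W1 + c2 * W2 ≤ W))

theorem base {z Λ : ℝ} (hz : 1 ≤ z) (hβ : Wts β)
    (hΛ : ∀ h, 1 / 2 * (β h false + β h true) ≤ Λ) (s : US) (hl : s.len ≤ 15)
    (h k : List Bool) (b : ℕ) : s.Mw β z h k 0 b ≤ z ^ 15 * Λ ^ b := by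
  have hz0 : 0 ≤ z := by linarith
  refine le_trans ?_ (Ew_const_le hβ hΛ (pow_nonneg hz0 15) b k)
  simp only [Mw, Ew]
  refine Ew_mono hβ _ _ (fun Y => ?_)
  exact (val_le hz s Y).trans (pow_le_pow_right₀ hz hl)

theorem mainW {z Λ w0 : ℝ} (hz : 1 ≤ z) (hβ : Wts β) (hΛ1 : 1 ≤ Λ)
    (hΛ : ∀ h, 1 / 2 * (β h false + β h true) ≤ Λ) (hw : 0 < w0)
    {T : ℕ → US → ℝ → Prop} (hC : CertW β z Λ w0 T) (n : ℕ) :
    ∀ i s W, T i s W → s.good → Bw β z s n (z ^ 15 / w0 * W * Λ ^ n) := by
  have hz0 : 0 < z := by linarith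
  have hK : 0 ≤ z ^ 15 / w0 := by positivity
  have hb : ∀ (s : US) (W : ℝ), w0 ≤ W → s.len ≤ 15 → ∀ (h k : List Bool) (b : ℕ),
      s.Mw β z h k 0 b ≤ z ^ 15 / w0 * W * Λ ^ b := by
    intro s W hW hl h k b
    refine (base hz hβ hΛ s hl h k b).trans ?_
    have h2 : z ^ 15 ≤ z ^ 15 / w0 * W := by
      rw [div_mul_eq_mul_div, le_div_iff₀ hw]
      exact mul_le_mul_of_nonneg_left hW (by positivity)
    exact mul_le_mul_of_nonneg_right h2 (by positivity)
  have hsplit : ∀ (n : ℕ) (i : ℕ) (s : US) (W : ℝ),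
      (∀ m, m < i → ∀ s W, T m s W → s.good → Bw β z s n (z ^ 15 / w0 * W * Λ ^ n)) →
      (∃ c1 c2 s1 s2 W1 W2, 0 ≤ c1 ∧ 0 ≤ c2 ∧
        (∀ X Y, s.val z X Y ≤ c1 * s1.val z X Y + c2 * s2.val z X Y) ∧
        (lets s1.fsd <+: lets s.fsd ∧ lets s1.sec <+: lets s.sec) ∧
        (lets s2.fsd <+: lets s.fsd ∧ lets s2.sec <+: lets s.sec) ∧
        Pw β z T (fun j => j < i) s1 W1 ∧ Pw β z T (fun j => j < i) s2 W2 ∧
        c1 * W1 + c2 * W2 ≤ W) → Bw β z s n (z ^ 15 / w0 * W * Λ ^ n) := by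
    intro n i s W ih h
    obtain ⟨c1, c2, s1, s2, W1, W2, hc1, hc2, hv, hs1, hs2, ⟨j1, t1, hj1, hT1, hg1, hb1⟩,
      ⟨j2, t2, hj2, hT2, hg2, hb2⟩, hle⟩ := h
    intro a b u v hab hu hv'
    have k1 := hb1 _ _ (ih j1 hj1 t1 W1 hT1 hg1) a b u v hab (Hs_mono hs1.1 hu)
      (Hs_mono hs1.2 hv')
    have k2 := hb2 _ _ (ih j2 hj2 t2 W2 hT2 hg2) a b u v hab (Hs_mono hs2.1 hu)
      (Hs_mono hs2.2 hv')
    have k := Mw_le_two hβ hv u v a b
    have l1 := mul_le_mul_of_nonneg_left k1 hc1
    have l2 := mul_le_mul_of_nonneg_left k2 hc2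
    have hK' : 0 ≤ z ^ 15 / w0 * Λ ^ n := by positivity
    have l3 := mul_le_mul_of_nonneg_left hle hK'
    refine k.trans ((add_le_add l1 l2).trans (le_trans (le_of_eq ?_) (l3.trans (le_of_eq ?_))))
    · ring
    · ring
  induction n with
  | zero =>
    intro i
    induction i using Nat.strong_induction_on with
    | _ i ih =>
      intro s W hT hg
      obtain ⟨hW, hl, h | h⟩ := hC i s W hT hg
      · intro a b u v hab hu hv
        obtain rfl : a = 0 := by omega
        obtain rfl : b = 0 := by omega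
        exact hb s W hW hl u v 0
      · exact hsplit 0 i s W ih h
  | succ n ihn =>
    intro i
    induction i using Nat.strong_induction_on with
    | _ i ih =>
      intro s W hT hg
      obtain ⟨hW, hl, h | h⟩ := hC i s W hT hg
      · intro a b u v hab hu hv
        rcases Nat.eq_zero_or_pos a with h0 | h0
        · subst h0
          obtain rfl : b = n + 1 := by omega
          exact hb s W hW hl u v (n + 1)
        · obtain ⟨a, rfl⟩ : ∃ a', a = a' + 1 := ⟨a - 1, by omega⟩
          obtain ⟨s0, s1, W0, W1, hs0, hs1, ⟨j0, t0, -, hT0, hg0, hb0⟩,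
            ⟨j1, t1, -, hT1, hg1, hb1⟩, hle⟩ := h
          have hu' : ∀ (x : Bool) (s' : US), Stp x s s' → Hs (x :: u) s'.fsd := by
            intro x s' hs
            refine ⟨by have := hu.1; simp only [List.length_cons]; omega, ?_⟩
            rw [Stp_fsd hs]
            exact (List.prefix_cons_inj x).2 hu.2
          have hv' : ∀ (x : Bool) (s' : US), Stp x s s' → Hs v s'.sec := by
            intro x s' hs
            refine ⟨hv.1, ?_⟩
            rw [Stp_sec hs]
            exact hv.2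
          have k0 := hb0 _ _ (ihn j0 t0 W0 hT0 hg0) a b (false :: u) v (by omega)
            (hu' _ _ hs0) (hv' _ _ hs0)
          have k1 := hb1 _ _ (ihn j1 t1 W1 hT1 hg1) a b (true :: u) v (by omega)
            (hu' _ _ hs1) (hv' _ _ hs1)
          have hle := hle u hu
          rw [Mw_succ hz0.ne' hs0 hs1]
          have q0 : 0 ≤ β u false * z ^ (pass false s.sec).2.toNat :=
            mul_nonneg (hβ.pos _ _).le (by positivity)
          have q1 : 0 ≤ β u true * z ^ (pass true s.sec).2.toNat :=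
            mul_nonneg (hβ.pos _ _).le (by positivity)
          have l0 := mul_le_mul_of_nonneg_left k0 q0
          have l1 := mul_le_mul_of_nonneg_left k1 q1
          have hK' : 0 ≤ z ^ 15 / w0 * Λ ^ n := by positivity
          have l3 := mul_le_mul_of_nonneg_left hle hK'
          have e : z ^ 15 / w0 * W * Λ ^ (n + 1) = z ^ 15 / w0 * Λ ^ n * (Λ * W) := by ring
          rw [e]
          refine le_trans ?_ l3
          linarith
      · exact hsplit (n + 1) i s W ih h

end US

/-- the start: two particles on each side -/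
def st0 : US := US.psi [(true, false), (true, false)] [(true, false), (true, false)]

theorem upper_limW {z Λ w0 W0 C : ℝ} (hz : 1 < z) (hβ : Wts β) (hΛ1 : 1 ≤ Λ)
    (hΛ : ∀ h, 1 / 2 * (β h false + β h true) ≤ Λ) (hw : 0 < w0)
    {T : ℕ → US → ℝ → Prop} (hC : US.CertW β z Λ w0 T) {i0 : ℕ} (h0 : T i0 st0 W0)
    (hl : Tendsto (fun n : ℕ => EL (1 / 2) n / n) atTop (𝓝 C)) :
    C ≤ 2 * Real.log Λ / Real.log z := by
  have hz0 : 0 < z := by linarith
  have hlz : 0 < Real.log z := Real.log_pos hz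
  have hΛ0 : 0 < Λ := by linarith
  obtain ⟨hW, -, -⟩ := hC i0 _ _ h0 trivial
  have hW0 : 0 < W0 := lt_of_lt_of_le hw hW
  have hK : 0 < z ^ 15 / w0 * W0 := by positivity
  have key : ∀ n : ℕ, Real.log z * EL (1 / 2) n ≤
      Real.log (z ^ 15 / w0 * W0) + 2 * n * Real.log Λ := by
    intro n
    have hs : Hs [false, false] [(true, false), (true, false)] := ⟨le_rfl, List.prefix_rfl⟩
    have h1 := US.mainW hz.le hβ hΛ1 hΛ hw hC (n + n) i0 _ _ h0 trivial n n _ _ rfl hs hs
    have h2 := EL_expw hβ (θ := Real.log z) n [false, false] [false, false]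
    have h3 : Ew β n [false, false] (fun x => Ew β n [false, false]
        (fun y => Real.exp (Real.log z * (LCS x y : ℝ)))) =
        US.Mw β z st0 [false, false] [false, false] n n := by
      unfold US.Mw
      refine Ew_congr _ _ _ (fun x => Ew_congr _ _ _ (fun y => ?_))
      simp only [US.val, st0]
      have e : FF [(true, false), (true, false)] [(true, false), (true, false)] x y =
          (LCS x y : ℤ) := by
        rw [FF, FX_particles _ (by simp), FX_particles _ (by simp), LCS_comm y x, max_self]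
      rw [e, zpow_natCast, mul_comm, Real.exp_nat_mul, Real.exp_log hz0]
    rw [h3] at h2
    have h4 := h2.trans h1
    have h5 := Real.log_le_log (Real.exp_pos _) h4
    rw [Real.log_exp, Real.log_mul hK.ne' (by positivity), Real.log_pow] at h5
    refine h5.trans (le_of_eq ?_)
    push_cast
    ring
  have t1 : Tendsto (fun n : ℕ => 2 * Real.log Λ / Real.log z +
      (Real.log (z ^ 15 / w0 * W0) / Real.log z) / n) atTop
      (𝓝 (2 * Real.log Λ / Real.log z + 0)) :=
    tendsto_const_nhds.add (tendsto_const_nhds.div_atTop tendsto_natCast_atTop_atTop)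
  rw [add_zero] at t1
  refine le_of_tendsto_of_tendsto hl t1 ?_
  filter_upwards [eventually_gt_atTop 0] with n hn
  have h' : (0 : ℝ) < n := by exact_mod_cast hn
  rw [div_le_iff₀ h']
  have := key n
  have e : (2 * Real.log Λ / Real.log z + Real.log (z ^ 15 / w0 * W0) / Real.log z / n) * n =
      (Real.log (z ^ 15 / w0 * W0) + 2 * n * Real.log Λ) / Real.log z := by
    field_simp
    ring
  rw [e, le_div_iff₀ hlz]
  linarith

end Pool.Agent.ad013a
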