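import Pool.Agent.H.MP_ad013a_pr.h63w.WSound

/-!
# Soundness of the checker with weights: pointers and letters
-/

namespace Pool.Agent.ad013a

variable {β : List Bool → Bool → ℝ}

/-- the entry `t` describes `s` -/
def EncW (t : ℕ) : US → Prop
  | US.psi x y => uD t = 0 ∧ Enc t x y
  | US.dif R e x y x' y' => uD t = 1 ∧ uR t = R.toNat ∧ ue t = e.toNat ∧ Enc t x y ∧
      (R = e → kk e.toNat (fhx t) (up t) = eh x'.reverse) ∧
      (R ≠ e → kk e.toNat (fhy t) (up t) = eh y'.reverse)

theorem lets_cf {x y : List Site} (c : Bool) (h : lets y <+: lets (cf c x)) :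
    lets (cf c y) <+: lets x := by
  cases c
  · exact h
  · change lets (flp y) <+: lets x
    rw [lets_flp]
    have h' : lets y <+: lets (flp x) := h
    rw [lets_flp] at h'
    have := h'.map not
    have nn : ∀ w : List Bool, (w.map not).map not = w := by
      intro w
      simp [List.map_map, Function.comp_def]
    rwa [nn] at this

/-- passage to an entry: truncation after complement -/
theorem Bw_cf (hβ : Wts β) {z : ℝ} {s : US} {n : ℕ} {k : ℝ} (c : Bool)
    (h : US.Bw β z (bif c then s.cpl else s) n k) : US.Bw β z s n k := by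
  cases c
  · exact h
  · exact US.Bw_cpl hβ h

theorem ptP_soundW (hβ : Wts β) (z : ℝ) {x y : List Site} {f t : ℕ}
    (H : ptP f (eh x.reverse) (el x.reverse) x.length
      (eh y.reverse) (el y.reverse) y.length t = true) :
    ∃ s' : US, EncW t s' ∧ s'.good ∧
      ∀ n k, US.Bw β z s' n k → US.Bw β z (US.psi x y) n k := by
  unfold ptP at H
  simp only at H
  generalize Nat.ble 2 f = c at H
  rw [cpn_eq, cpn_eq, eh_cf' c x, eh_cf' c y, ← cf_length c x, ← cf_length c y] at H
  rw [rb_and] at H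
  obtain ⟨H0, H⟩ := H
  rw [Nat_beq_eq] at H0
  rcases rb_or.1 H with ⟨-, H⟩ | ⟨-, H⟩
  · obtain ⟨H1, H2⟩ := rb_and.1 H
    obtain ⟨a1, a2, a3, a4⟩ := cmpT_sound H1
    obtain ⟨b1, b2, b3, b4⟩ := cmpT_sound H2
    refine ⟨US.psi ((cf c x).take (fnx t)) ((cf c y).take (fny t)), ⟨H0, ⟨a2, a3, ?_⟩,
      ⟨b2, b3, ?_⟩⟩, trivial, ?_⟩
    · rw [List.length_take]; omega
    · rw [List.length_take]; omega
    · intro n k hk
      apply Bw_cf hβ c
      rw [psi_cf]
      exact US.Bw_mono hβ (fun X Y => le_of_eq (psi_take a4 b4 X Y)) (lets_take _ _)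
        (lets_take _ _) hk
  · obtain ⟨H1, H2⟩ := rb_and.1 H
    obtain ⟨a1, a2, a3, a4⟩ := cmpT_sound H1
    obtain ⟨b1, b2, b3, b4⟩ := cmpT_sound H2
    refine ⟨US.psi ((cf c y).take (fnx t)) ((cf c x).take (fny t)), ⟨H0, ⟨a2, a3, ?_⟩,
      ⟨b2, b3, ?_⟩⟩, trivial, ?_⟩
    · rw [List.length_take]; omega
    · rw [List.length_take]; omega
    · intro n k hk
      apply Bw_cf hβ c
      rw [psi_cf]
      apply US.Bw_swap
      exact US.Bw_mono hβ (fun X Y => le_of_eq (psi_take a4 b4 X Y)) (lets_take _ _)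
        (lets_take _ _) hk

theorem up_eq (t : ℕ) : up t = 2 ^ uq t := rfl

theorem ptM_sound (hβ : Wts β) {z : ℝ} (hz : 1 ≤ z) {e : Bool} {x x' y : List Site}
    (h : Dp e e x y x' y) {m c : Bool} {t : ℕ}
    (H : ptM m c e.toNat (eh x.reverse) (eh x'.reverse) (el x.reverse) x.length
      (eh y.reverse) (el y.reverse) y.length t = true) :
    ∃ s' : US, EncW t s' ∧ s'.good ∧
      ∀ n k, US.Bw β z s' n k → US.Bw β z (US.dif e e x y x' y) n k := by
  unfold ptM at H
  rw [cpn_eq, cpn_eq, eh_cf' c x, eh_cf' c y, eh_cf' c x', ← cf_length c x,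
    ← cf_length c y] at H
  obtain ⟨H0, H⟩ := rb_and.1 H
  obtain ⟨He, H⟩ := rb_and.1 H
  rw [Nat_beq_eq] at H0 He
  have hc : Dp e e (cf c x) (cf c y) (cf c x') (cf c y) := Dp_cf c h
  rcases rb_or.1 H with ⟨-, H⟩ | ⟨-, H⟩
  · obtain ⟨HR, H⟩ := rb_and.1 H
    rw [Nat_beq_eq] at HR
    obtain ⟨tx, ty, tx', k1, k2, k3, k4, k5, k6, k7⟩ :=
      cmpD_sound hz hc (up_eq t) rfl H
    refine ⟨US.dif e e tx ty tx' ty, ⟨H0, HR, He, ⟨k2, k3⟩, fun _ => k4,
      fun h => absurd rfl h⟩, k1, ?_⟩
    intro n k hk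
    apply Bw_cf hβ c
    rw [dif_cf]
    exact US.Bw_mono hβ (s := US.dif e e (cf c x) (cf c y) (cf c x') (cf c y))
      (t := US.dif e e tx ty tx' ty) k7 k5 k6 hk
  · obtain ⟨HR, H⟩ := rb_and.1 H
    rw [Nat_beq_eq] at HR
    have e1 : Nat.sub 1 e.toNat = (!e).toNat := by cases e <;> rfl
    rw [e1] at HR
    obtain ⟨tx, ty, tx', k1, k2, k3, k4, k5, k6, k7⟩ :=
      cmpD_sound hz hc (up_eq t) rfl H
    refine ⟨US.dif (!e) e ty tx ty tx', ⟨H0, HR, He, ⟨k3, k2⟩,
      fun h => absurd h (by cases e <;> simp), fun _ => k4⟩, Dp_swap k1, ?_⟩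
    intro n k hk
    apply Bw_cf hβ c
    rw [dif_cf]
    refine US.Bw_mono hβ (s := US.dif e e (cf c x) (cf c y) (cf c x') (cf c y))
      (t := US.dif e e tx ty tx' ty) k7 k5 k6 ?_
    apply US.Bw_swap
    exact hk

theorem ptA_sound (hβ : Wts β) {z : ℝ} (hz : 1 ≤ z) {e : Bool} {x x' y : List Site}
    (h : Dp e e x y x' y) {f t : ℕ}
    (H : ptA f e.toNat (eh x.reverse) (eh x'.reverse) (el x.reverse) x.length
      (eh y.reverse) (el y.reverse) y.length t = true) :
    ∃ s' : US, EncW t s' ∧ s'.good ∧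
      ∀ n k, US.Bw β z s' n k → US.Bw β z (US.dif e e x y x' y) n k :=
  ptM_sound hβ hz h H

theorem ptB_sound (hβ : Wts β) {z : ℝ} (hz : 1 ≤ z) {e : Bool} {x y y' : List Site}
    (h : Dp (!e) e x y x y') {f t : ℕ}
    (H : ptB f e.toNat (eh x.reverse) (el x.reverse) x.length
      (eh y.reverse) (eh y'.reverse) (el y.reverse) y.length t = true) :
    ∃ s' : US, EncW t s' ∧ s'.good ∧
      ∀ n k, US.Bw β z s' n k → US.Bw β z (US.dif (!e) e x y x y') n k := by
  have h' : Dp e e y x y' x := by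
    have := Dp_swap h
    rwa [Bool.not_not] at this
  obtain ⟨s', h1, h2, h3⟩ := ptM_sound hβ hz h' H
  refine ⟨s', h1, h2, fun n k hk => US.Bw_swap ?_⟩
  have := h3 n k hk
  rw [US.swap, Bool.not_not]
  exact this

theorem rwP_sound (hβ : Wts β) (z : ℝ) {a : Bool} {x y : List Site} {f b w r t : ℕ}
    (hb : b = 2 ^ x.length * a.toNat)
    (hw : w = car (eh y.reverse) (em a y.reverse)) (hr : r = (pass a y).2.toNat)
    (H : rwP f b (eh x.reverse) (el x.reverse) x.length (el y.reverse) y.length w r t = true) :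
    ∃ s' : US, EncW t s' ∧ s'.good ∧
      ∀ n c, US.Bw β z s' n c → US.Bw β z (US.psi (nx a x y) (ny a y)) n c := by
  unfold rwP at H
  rw [eh_nx a x y hr, el_nx a x y hb, eh_ny a y hw hr, ← el_ny a y,
    show Nat.succ x.length = (nx a x y).length from rfl, ← ny_length a y] at H
  exact ptP_soundW hβ z H

/-- marker on the first side -/
theorem rwA_sound (hβ : Wts β) {z : ℝ} (hz : 1 ≤ z) {a e : Bool} {x y x' : List Site}
    {f b w r t : ℕ} (h : Dp e e x y x' y)
    (hb : b = 2 ^ x.length * a.toNat)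
    (hw : w = car (eh y.reverse) (em a y.reverse)) (hr : r = (pass a y).2.toNat)
    (H : rwA f e.toNat b (eh x.reverse) (eh x'.reverse) (el x.reverse) x.length
      (el y.reverse) y.length w r t = true) :
    ∃ s : US, US.Stp a (US.dif e e x y x' y) s ∧
    ∃ s' : US, EncW t s' ∧ s'.good ∧ ∀ n c, US.Bw β z s' n c → US.Bw β z s n c := by
  obtain ⟨e', D, he⟩ := Dp_step h a
  have hee : e' = e := by
    rw [add_sub_cancel_right] at he
    cases e <;> cases e' <;> simp at he ⊢
  subst hee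
  refine ⟨_, ⟨e', rfl, he⟩, ?_⟩
  unfold rwA at H
  have lx : x'.length = x.length := (Dp_length h).1
  have e2 := eh_nx a x' y hr
  rw [lx] at e2
  rw [eh_nx a x y hr, el_nx a x y hb, eh_ny a y hw hr, e2, ← el_ny a y,
    show Nat.succ x.length = (nx a x y).length from rfl, ← ny_length a y] at H
  exact ptA_sound hβ hz D H

/-- marker on the second side -/
theorem rwB_sound (hβ : Wts β) {z : ℝ} (hz : 1 ≤ z) {a e : Bool} {x y y' : List Site}
    {f b w v r s t : ℕ} (h : Dp (!e) e x y x y')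
    (hb : b = 2 ^ x.length * a.toNat)
    (hw : w = car (eh y.reverse) (em a y.reverse)) (hr : r = (pass a y).2.toNat)
    (hv : v = car (eh y'.reverse) (em a y'.reverse)) (hs : s = (pass a y').2.toNat)
    (H : rwB f e.toNat b (eh x.reverse) (el x.reverse) x.length
      (el y.reverse) y.length w v r s t = true) :
    ∃ s1 : US, US.Stp a (US.dif (!e) e x y x y') s1 ∧
    ∃ s' : US, EncW t s' ∧ s'.good ∧ ∀ n c, US.Bw β z s' n c → US.Bw β z s1 n c := by
  obtain ⟨e', D, he⟩ := Dp_step h a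
  refine ⟨_, ⟨e', rfl, he⟩, ?_⟩
  have ly : y'.length = y.length := (Dp_length h).2
  have n1 := eh_nx a x y hr
  have n2 := eh_nx a x y' hs
  have n3 := eh_ny a y hw hr
  have n4 := eh_ny a y' hv hs
  rw [ly] at n4
  unfold rwB at H
  rw [n1, n2, n3, n4, el_nx a x y hb, ← el_ny a y,
    show Nat.succ x.length = (nx a x y).length from rfl, ← ny_length a y] at H
  rcases rb_or.1 H with ⟨hrs, H⟩ | ⟨hrs, H⟩
  · -- the carriers differ
    have hne : (pass a y).2 ≠ (pass a y').2 := by
      intro h'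
      rw [hr, hs, h'] at hrs
      have := Nat.beq_refl (pass a y').2.toNat
      rw [hrs] at this
      cases this
    have e1 : Nat.sub (Nat.add e.toNat r) s = e'.toNat := by
      change e.toNat + r - s = _
      rw [hr, hs]
      omega
    have hee : e' = !e := by
      cases h1 : (pass a y).2 <;> cases h2 : (pass a y').2 <;> rw [h1, h2] at he <;>
        cases e <;> cases e' <;> simp [h1, h2] at he hne ⊢
    subst hee
    rw [e1] at H
    have hyy : ny a y = ny a y' := by
      cases e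
      · exact D.2
      · exact D.2
    have D' : Dp (!e) (!e) (nx a x y) (ny a y) (nx a x y') (ny a y) := by
      rw [← hyy] at D
      exact D
    have := ptA_sound hβ hz D' H
    rw [← hyy]
    exact this
  · rw [Nat_beq_eq] at hrs
    have hpp : (pass a y).2 = (pass a y').2 := by
      rw [hr, hs] at hrs
      cases h1 : (pass a y).2 <;> cases h2 : (pass a y').2 <;> rw [h1, h2] at hrs <;>
        simp at hrs ⊢
    have hee : e' = e := by
      rw [hpp, add_sub_cancel_right] at he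
      cases e <;> cases e' <;> simp at he ⊢
    subst hee
    have hxx : nx a x y' = nx a x y := by rw [nx, nx, hpp]
    rw [hxx] at D ⊢
    exact ptB_sound hβ hz D H

end Pool.Agent.ad013a
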