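import Pool.Agent.H.MP_ad013a_pr.h63u.UCert
import Pool.Agent.H.MP_ad013a_pr.h63w.WMain
import Pool.Agent.H.MP_ad013a_pr.h63w.WK

/-!
# Soundness of the checker with weights: pointers
-/

namespace Pool.Agent.ad013a

/-- same letters, and the holes of the first are holes of the second -/
inductive Les : List Site → List Site → Prop
  | nil : Les [] []
  | cons {s r : Site} {g f : List Site} (h1 : s.2 = r.2) (h2 : s.1 = false → r.1 = false)
      (h : Les g f) : Les (s :: g) (r :: f)

theorem Les.refl (f : List Site) : Les f f := by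
  induction f with
  | nil => exact Les.nil
  | cons s f ih => exact Les.cons rfl id ih

theorem Les.append {g f g' f' : List Site} (h : Les g f) (h' : Les g' f') :
    Les (g ++ g') (f ++ f') := by
  induction h with
  | nil => exact h'
  | cons h1 h2 _ ih => exact Les.cons h1 h2 ih

theorem Les.reverse {g f : List Site} (h : Les g f) : Les g.reverse f.reverse := by
  induction h with
  | nil => exact Les.nil
  | cons h1 h2 _ ih =>
    rw [List.reverse_cons, List.reverse_cons]
    exact ih.append (Les.cons h1 h2 Les.nil)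

theorem Les.length_eq {g f : List Site} (h : Les g f) : g.length = f.length := by
  induction h with
  | nil => rfl
  | cons _ _ _ ih => rw [List.length_cons, List.length_cons, ih]

theorem Les.lets_eq {g f : List Site} (h : Les g f) : lets g = lets f := by
  induction h with
  | nil => rfl
  | cons h1 _ _ ih =>
    simp only [lets, List.map_cons] at ih ⊢
    rw [h1, ih]

theorem Les.el_eq {g f : List Site} (h : Les g f) : el g = el f := by
  induction h with
  | nil => rfl
  | cons h1 _ _ ih => rw [el, el, h1, ih]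

theorem Les.take {g f : List Site} (h : Les g f) (n : ℕ) : Les (g.take n) (f.take n) := by
  induction h generalizing n with
  | nil => simpa using Les.nil
  | cons h1 h2 _ ih =>
    cases n with
    | zero => exact Les.nil
    | succ n => exact Les.cons h1 h2 (ih n)

theorem Les.drop {g f : List Site} (h : Les g f) (n : ℕ) : Les (g.drop n) (f.drop n) := by
  induction h generalizing n with
  | nil => simpa using Les.nil
  | cons h1 h2 h ih =>
    cases n with
    | zero => exact Les.cons h1 h2 h
    | succ n => exact ih n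

theorem Les.eq_of_eh {g f : List Site} (h : Les g f) (he : eh g = eh f) : g = f := by
  induction h with
  | nil => rfl
  | @cons s r g f h1 h2 _ ih =>
    rw [eh, eh, Nat.bit_val, Nat.bit_val] at he
    have e1 : s.1 = r.1 := by
      cases hs : s.1 <;> cases hr : r.1 <;> rw [hs, hr] at he <;> simp at he ⊢ <;> omega
    have e2 : eh g = eh f := by
      rw [e1] at he
      omega
    rw [ih e2, Prod.ext e1 h1]

theorem Les.FX_le {g f : List Site} (h : Les g f) (A Y : List Bool) : FX g A Y ≤ FX f A Y := by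
  induction h generalizing A with
  | nil => exact le_rfl
  | @cons s r g f h1 h2 _ ih =>
    have := ih (r.2 :: A)
    rw [FX, FX, h1]
    have e : (r.1.toNat : ℤ) ≤ s.1.toNat := by
      cases hs : s.1
      · rw [h2 hs]
      · cases r.1 <;> simp
    omega

/-- far first -/
theorem sub_ex (f : List Site) (h : ℕ) (H : h &&& eh f = h) : ∃ g, Les g f ∧ eh g = h := by
  induction f generalizing h with
  | nil =>
    refine ⟨[], Les.nil, ?_⟩
    simp only [eh, Nat.and_zero] at H
    exact H
  | cons s f ih =>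
    have e := Nat.bit_bodd_div2 h
    generalize Nat.bodd h = b at e
    generalize Nat.div2 h = h' at e
    subst e
    rw [eh, Nat.land_bit] at H
    have H1 : (b && !s.1) = b ∧ h' &&& eh f = h' := by
      have k1 := congrArg Nat.bodd H
      have k2 := congrArg Nat.div2 H
      rw [Nat.bodd_bit, Nat.bodd_bit] at k1
      rw [Nat.div2_bit, Nat.div2_bit] at k2
      exact ⟨k1, k2⟩
    obtain ⟨g, hg, he⟩ := ih h' H1.2
    refine ⟨(!b, s.2) :: g, Les.cons rfl ?_ hg, ?_⟩
    · intro hb
      have h1 := H1.1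
      simp only [Bool.not_eq_false'] at hb
      rw [hb] at h1
      simpa using h1
    · rw [eh, he, Bool.not_not]

theorem cmpS_sound {y : List Site} {h' l' n' : ℕ}
    (H : cmpS (eh y.reverse) (el y.reverse) y.length h' l' n' = true) :
    ∃ ty, Les ty (y.take n') ∧ n' ≤ y.length ∧ h' = eh ty.reverse ∧ l' = el ty.reverse ∧
      n' = ty.length := by
  unfold cmpS at H
  rw [rb_and] at H
  obtain ⟨H1, H⟩ := H
  rw [Nat_ble_eq] at H1
  obtain ⟨H2, H3⟩ := rb_and.1 H
  rw [Nat_beq_eq] at H2 H3
  have e : Nat.shiftRight (eh y.reverse) (Nat.sub y.length n') = eh (y.take n').reverse :=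
    (eh_take y H1).symm
  rw [e] at H2
  obtain ⟨g, hg, he⟩ := sub_ex _ _ H2
  have hL : Les g.reverse (y.take n') := by
    have := hg.reverse
    rwa [List.reverse_reverse] at this
  refine ⟨g.reverse, hL, H1, ?_, ?_, ?_⟩
  · rw [List.reverse_reverse, he]
  · rw [List.reverse_reverse, hg.el_eq, el_take y H1]
    exact H3.symm
  · rw [hL.length_eq, List.length_take]; omega

theorem cmpG_sound {y y' : List Site} (hR : Rel1 y' y) {h' k' l' n' q : ℕ}
    (hk : k' = h' + 2 ^ q)
    (H : cmpG (eh y.reverse) (eh y'.reverse) (el y.reverse) y.length h' k' l' n' q = true) :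
    ∃ t t' b c, y = t ++ b ∧ y' = t' ++ b ∧ Rel1 t' t ∧ (∃ j, Les c (b.take j)) ∧
      h' = eh (t ++ c).reverse ∧ l' = el (t ++ c).reverse ∧ n' = (t ++ c).length ∧
      k' = eh (t' ++ c).reverse := by
  unfold cmpG at H
  rw [rb_and] at H
  obtain ⟨H1, H⟩ := H
  rw [Nat_ble_eq] at H1
  simp only at H
  rw [rb_and, rb_and, rb_and, rb_and] at H
  obtain ⟨Hq, Hk, Hh, Hs, Hl⟩ := H
  rw [Nat_ble_eq] at Hq
  rw [Nat_beq_eq] at Hk Hh Hs Hl
  have ly : y'.length = y.length := hR.length_eq.symm
  have e : Nat.shiftRight (eh y.reverse) (Nat.sub y.length n') = eh (y.take n').reverse :=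
    (eh_take y H1).symm
  rw [e] at Hs
  obtain ⟨g, hg, he⟩ := sub_ex _ _ Hs
  have hL : Les g.reverse (y.take n') := by
    have := hg.reverse
    rwa [List.reverse_reverse] at this
  have gl : g.reverse.length = n' := by
    rw [hL.length_eq, List.length_take]; omega
  set u := g.reverse with hu
  have heu : eh u.reverse = h' := by rw [hu, List.reverse_reverse, he]
  have m1 : n' - q ≤ y.length := by omega
  have m2 : n' - q ≤ y'.length := by omega
  have m3 : n' - q ≤ u.length := by omega
  have t1 : eh (y.take (n' - q)).reverse = h' >>> q := by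
    rw [eh_take y m1, show y.length - (n' - q) = (y.length - n') + q by omega]
    exact Hh
  have t2 : eh (y'.take (n' - q)).reverse = k' >>> q := by
    rw [eh_take y' m2, show y'.length - (n' - q) = (y.length - n') + q by omega]
    exact Hk
  have t3 : eh (u.take (n' - q)).reverse = h' >>> q := by
    rw [eh_take u m3, heu, show u.length - (n' - q) = q by omega]
  have t4 : k' >>> q = h' >>> q + 1 := by
    rw [hk, Nat.shiftRight_eq_div_pow, Nat.shiftRight_eq_div_pow,
      Nat.add_div_right _ (Nat.two_pow_pos q)]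
  have hTL : Les (u.take (n' - q)) (y.take (n' - q)) := by
    have := hL.take (n' - q)
    rw [List.take_take] at this
    rwa [show min (n' - q) n' = n' - q by omega] at this
  have hT : u.take (n' - q) = y.take (n' - q) := by
    have := hTL.reverse.eq_of_eh (by rw [t3, t1])
    rw [← List.reverse_reverse (u.take (n' - q)), this, List.reverse_reverse]
  rcases hR.take (n' - q) with ⟨r1, r2⟩ | ⟨r1, -⟩
  swap
  · exfalso
    rw [r1, t1] at t2
    omega
  refine ⟨y.take (n' - q), y'.take (n' - q), y.drop (n' - q), u.drop (n' - q),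
    (List.take_append_drop _ _).symm, ?_, r1, ⟨q, ?_⟩, ?_, ?_, ?_, ?_⟩
  · rw [← r2, List.take_append_drop]
  · have := hL.drop (n' - q)
    rwa [List.drop_take, show n' - (n' - q) = q by omega] at this
  · rw [← hT, List.take_append_drop, heu]
  · rw [← hT, List.take_append_drop, hu, List.reverse_reverse, hg.el_eq, el_take y H1]
    exact Hl.symm
  · rw [← hT, List.take_append_drop, gl]
  · have lc : (u.drop (n' - q)).reverse.length = q := by
      rw [List.length_reverse, List.length_drop]; omega
    have e1 : eh (u.take (n' - q) ++ u.drop (n' - q)).reverse = h' := by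
      rw [List.take_append_drop, heu]
    rw [List.reverse_append, eh_app, lc, t3] at e1
    rw [List.reverse_append, eh_app, lc, t2, t4, hk, mul_add, mul_one]
    omega

theorem phi3 {z : ℝ} (hz : 1 ≤ z) {a a' N N' : ℤ} (h : a' ≤ a) (hN : N' ≤ N) :
    z ^ max a N - z ^ max a' N ≤ z ^ max a N' - z ^ max a' N' := by
  rcases le_total N a with h1 | h1
  · rw [max_eq_left h1, max_eq_left (hN.trans h1)]
    have := zpow_le_zpow_right₀ hz (max_le_max (le_refl a') hN)
    linarith
  · rw [max_eq_right h1, max_eq_right (h.trans h1)]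
    have := zpow_le_zpow_right₀ hz (max_le_max h (le_refl N'))
    linarith

/-- points outside the region may be lowered -/
theorem vD_lower_right {z : ℝ} (hz : 1 ≤ z) {e : Bool} {x t x' t' : List Site}
    (h : Dp false e x t x' t') {b c : List Site} (hb : ∀ A X, FX c A X ≤ FX b A X)
    (X Y : List Bool) :
    vD z e x (t ++ b) x' (t' ++ b) X Y ≤ vD z e x (t ++ c) x' (t' ++ c) X Y := by
  have hle := Dp_le h X Y
  have hN : ∀ u : List Site, (FX u (ahead t' Y) X - cnt t') - (e.toNat : ℤ) =
      FX u (ahead t Y) X - cnt t := by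
    intro u
    cases e
    · obtain ⟨-, rfl⟩ := h
      simp
    · obtain ⟨-, h2⟩ := h
      rw [h2.ahead_eq, h2.cnt_eq]
      simp only [Bool.toNat_true, Nat.cast_one]
      ring
  have e1 : ∀ u : List Site,
      FF x (t ++ u) X Y = max (FF x t X Y) (FX u (ahead t Y) X - cnt t) := by
    intro u
    unfold FF; rw [FX_append]; omega
  have e2 : ∀ u : List Site, FF x' (t' ++ u) X Y - (e.toNat : ℤ) =
      max (FF x' t' X Y - (e.toNat : ℤ)) (FX u (ahead t Y) X - cnt t) := by
    intro u
    rw [← hN]
    unfold FF; rw [FX_append]; omega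
  rw [vD, e1, e2, vD, e1, e2]
  have := hb (ahead t Y) X
  exact phi3 hz hle (by omega)

theorem lets_take (x : List Site) (n : ℕ) : lets (x.take n) <+: lets x :=
  (List.take_prefix n x).map _

/-- the marker is in the region side -/
theorem drop0 {z : ℝ} (hz : 1 ≤ z) {x x' : List Site} (h : Rel1 x x') (y : List Site)
    {h1 k1 l1 n1 h2 l2 n2 : ℕ}
    (H1 : cmpR (eh x.reverse) (eh x'.reverse) (el x.reverse) x.length h1 k1 l1 n1 = true)
    (H2 : cmpS (eh y.reverse) (el y.reverse) y.length h2 l2 n2 = true) :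
    ∃ tx ty tx', Rel1 tx tx' ∧ (h1 = eh tx.reverse ∧ l1 = el tx.reverse ∧ n1 = tx.length) ∧
      (h2 = eh ty.reverse ∧ l2 = el ty.reverse ∧ n2 = ty.length) ∧ k1 = eh tx'.reverse ∧
      lets tx <+: lets x ∧ lets ty <+: lets y ∧
      ∀ X Y, vD z false x y x' y X Y ≤ vD z false tx ty tx' ty X Y := by
  obtain ⟨a1, a2, a3, a4, a5, a6⟩ := cmpR_sound h.length_eq H1
  obtain ⟨ty, b1, b2, b3, b4, b5⟩ := cmpS_sound H2
  have hT : Rel1 (x.take n1) (x'.take n1) := by
    rcases h.take n1 with ⟨c2, -⟩ | ⟨-, c2⟩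
    · exact c2
    · obtain ⟨r, hr, hr'⟩ := c2.ex_hole
      have := a5 r hr
      rw [hr'] at this
      cases this
  refine ⟨x.take n1, ty, x'.take n1, hT, ⟨a2, a4, ?_⟩, ⟨b3, b4, b5⟩, a3, lets_take x n1, ?_, ?_⟩
  · rw [List.length_take]; omega
  · rw [b1.lets_eq]
    exact lets_take y n2
  · intro X Y
    have e1 : vD z false x y x' y X Y = vD z false (x.take n1) y (x'.take n1) y X Y := by
      have f1 := FF_trim_left (x.take n1) (x.drop n1) y a5 X Y
      have f2 := FF_trim_left (x'.take n1) (x'.drop n1) y a6 X Y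
      rw [List.take_append_drop] at f1 f2
      rw [vD, vD, f1, f2]
    rw [e1]
    exact vD_lower_right (e := false) (t := []) (t' := []) hz ⟨hT, rfl⟩ (fun A X => (b1.FX_le A X).trans
      (by have := FX_take_le (y.take n2) (y.drop n2) A X; rwa [List.take_append_drop] at this))
      X Y

/-- the marker is in the other side -/
theorem drop1 {z : ℝ} (hz : 1 ≤ z) (x : List Site) {y y' : List Site} (h : Rel1 y' y)
    {h1 l1 n1 h2 k2 l2 n2 q : ℕ} (hk : k2 = h2 + 2 ^ q)
    (H1 : cmpT (eh x.reverse) (el x.reverse) x.length h1 l1 n1 = true)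
    (H2 : cmpG (eh y.reverse) (eh y'.reverse) (el y.reverse) y.length h2 k2 l2 n2 q = true) :
    ∃ tx ty ty', Rel1 ty' ty ∧ (h1 = eh tx.reverse ∧ l1 = el tx.reverse ∧ n1 = tx.length) ∧
      (h2 = eh ty.reverse ∧ l2 = el ty.reverse ∧ n2 = ty.length) ∧ k2 = eh ty'.reverse ∧
      lets tx <+: lets x ∧ lets ty <+: lets y ∧
      ∀ X Y, vD z true x y x y' X Y ≤ vD z true tx ty tx ty' X Y := by
  obtain ⟨a1, a2, a3, a4⟩ := cmpT_sound H1
  obtain ⟨t, t', b, c, rfl, rfl, c1, ⟨j, c2⟩, c3, c4, c5, c6⟩ := cmpG_sound h hk H2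
  refine ⟨x.take n1, t ++ c, t' ++ c, c1.append c, ⟨a2, a3, ?_⟩, ⟨c3, c4, c5⟩, c6,
    lets_take x n1, ?_, ?_⟩
  · rw [List.length_take]; omega
  · have := lets_take b j
    rw [← c2.lets_eq] at this
    simp only [lets, List.map_append] at this ⊢
    exact (List.prefix_append_right_inj _).2 this
  · intro X Y
    have e1 : vD z true x (t ++ b) x (t' ++ b) X Y =
        vD z true (x.take n1) (t ++ b) (x.take n1) (t' ++ b) X Y := by
      have f1 := FF_trim_left (x.take n1) (x.drop n1) (t ++ b) a4 X Y
      have f2 := FF_trim_left (x.take n1) (x.drop n1) (t' ++ b) a4 X Y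
      rw [List.take_append_drop] at f1 f2
      rw [vD, vD, f1, f2]
    rw [e1]
    exact vD_lower_right hz (e := true) ⟨rfl, c1⟩ (fun A X => (c2.FX_le A X).trans
      (by have := FX_take_le (b.take j) (b.drop j) A X; rwa [List.take_append_drop] at this))
      X Y

/-- the marker is on the first side -/
theorem cmpD_sound {z : ℝ} (hz : 1 ≤ z) {e : Bool} {x x' y : List Site}
    (h : Dp e e x y x' y) {h1 k1 l1 n1 q h2 l2 n2 p : ℕ} (hp : p = 2 ^ q)
    (hk : k1 = kk e.toNat h1 p)
    (H : cmpD e.toNat (eh x.reverse) (eh x'.reverse) (el x.reverse) x.length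
      (eh y.reverse) (el y.reverse) y.length h1 k1 l1 n1 q h2 l2 n2 = true) :
    ∃ tx ty tx', Dp e e tx ty tx' ty ∧
      (h1 = eh tx.reverse ∧ l1 = el tx.reverse ∧ n1 = tx.length) ∧
      (h2 = eh ty.reverse ∧ l2 = el ty.reverse ∧ n2 = ty.length) ∧ k1 = eh tx'.reverse ∧
      lets tx <+: lets x ∧ lets ty <+: lets y ∧
      ∀ X Y, vD z e x y x' y X Y ≤ vD z e tx ty tx' ty X Y := by
  unfold cmpD at H
  cases e
  · have H' : (rb false (cmpS (eh y.reverse) (el y.reverse) y.length h2 l2 n2)
      (cmpR (eh x.reverse) (eh x'.reverse) (el x.reverse) x.length h1 k1 l1 n1)) = true := H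
    rw [rb_and] at H'
    obtain ⟨tx, ty, tx', r1, r2, r3, r4, r5, r6, r7⟩ := drop0 hz h.1 y H'.1 H'.2
    exact ⟨tx, ty, tx', ⟨r1, rfl⟩, r2, r3, r4, r5, r6, r7⟩
  · have H' : (rb false (cmpT (eh y.reverse) (el y.reverse) y.length h2 l2 n2)
      (cmpG (eh x.reverse) (eh x'.reverse) (el x.reverse) x.length h1 k1 l1 n1 q)) = true := H
    rw [rb_and] at H'
    have hk' : k1 = h1 + 2 ^ q := by rw [hk, hp]; rfl
    obtain ⟨ty, tx, tx', r1, r2, r3, r4, r5, r6, r7⟩ := drop1 hz y h.1 hk' H'.2 H'.1
    refine ⟨tx, ty, tx', ⟨r1, rfl⟩, r3, r2, r4, r6, r5, ?_⟩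
    intro X Y
    have := r7 Y X
    simpa only [vD, FF_comm y, FF_comm ty] using this

end Pool.Agent.ad013a
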