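import Pool.Agent.H.MP_ad013a_pr.h63u.Upper

/-!
# Weighted expectations

The weight of a letter depends on the letters before it in the same word; the two weights have
product `1`, so that the logarithm of the weight of a word has expectation `0`.
-/

namespace Pool.Agent.ad013a

open Finset Filter Topology

/-- what the weights have to satisfy -/
structure Wts (β : List Bool → Bool → ℝ) : Prop where
  pos : ∀ h a, 0 < β h a
  mul : ∀ h, β h false * β h true = 1
  cpl : ∀ h a, β (h.map not) (!a) = β h a

/-- weighted expectation; `h` are the letters before, most recent first -/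
noncomputable def Ew (β : List Bool → Bool → ℝ) : ℕ → List Bool → (List Bool → ℝ) → ℝ
  | 0, _, f => f []
  | n + 1, h, f => 1 / 2 * (β h false * Ew β n (false :: h) (fun w => f (false :: w))) +
      1 / 2 * (β h true * Ew β n (true :: h) (fun w => f (true :: w)))

variable {β : List Bool → Bool → ℝ}

theorem Ew_mono (hβ : Wts β) (n : ℕ) (h : List Bool) {f g : List Bool → ℝ}
    (hfg : ∀ w, f w ≤ g w) : Ew β n h f ≤ Ew β n h g := by
  induction n generalizing h f g with
  | zero => exact hfg []
  | succ n ih =>
    simp only [Ew]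
    have a := mul_le_mul_of_nonneg_left (ih (false :: h) (f := fun w => f (false :: w))
      (g := fun w => g (false :: w)) (fun w => hfg _)) (hβ.pos h false).le
    have b := mul_le_mul_of_nonneg_left (ih (true :: h) (f := fun w => f (true :: w))
      (g := fun w => g (true :: w)) (fun w => hfg _)) (hβ.pos h true).le
    linarith

theorem Ew_lin (β : List Bool → Bool → ℝ) (n : ℕ) (h : List Bool) (a b : ℝ)
    (f g : List Bool → ℝ) :
    Ew β n h (fun w => a * f w + b * g w) = a * Ew β n h f + b * Ew β n h g := by
  induction n generalizing h f g with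
  | zero => rfl
  | succ n ih =>
    simp only [Ew]
    rw [ih, ih]; ring

theorem Ew_smul (β : List Bool → Bool → ℝ) (n : ℕ) (h : List Bool) (a : ℝ)
    (f : List Bool → ℝ) : Ew β n h (fun w => a * f w) = a * Ew β n h f := by
  have := Ew_lin β n h a 0 f (fun _ => 0)
  simpa using this

theorem Ew_comm (β : List Bool → Bool → ℝ) (m n : ℕ) (h k : List Bool)
    (f : List Bool → List Bool → ℝ) :
    Ew β m h (fun x => Ew β n k (fun y => f x y)) =
      Ew β n k (fun y => Ew β m h (fun x => f x y)) := by
  induction m generalizing h f with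
  | zero => rfl
  | succ m ih =>
    simp only [Ew]
    rw [ih, ih, Ew_lin, Ew_smul, Ew_smul]

theorem Ew_not (hβ : Wts β) (n : ℕ) (h : List Bool) (f : List Bool → ℝ) :
    Ew β n (h.map not) (fun w => f (w.map not)) = Ew β n h f := by
  induction n generalizing h f with
  | zero => rfl
  | succ n ih =>
    simp only [Ew, List.map_cons, Bool.not_false, Bool.not_true]
    have e1 := ih (true :: h) (fun w => f (true :: w))
    have e2 := ih (false :: h) (fun w => f (false :: w))
    simp only [List.map_cons, Bool.not_false, Bool.not_true] at e1 e2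
    have c1 := hβ.cpl h true
    have c2 := hβ.cpl h false
    simp only [Bool.not_false, Bool.not_true] at c1 c2
    rw [e1, e2, c1, c2]
    ring

theorem Ew_congr (β : List Bool → Bool → ℝ) (n : ℕ) (h : List Bool) {f g : List Bool → ℝ}
    (hfg : ∀ w, f w = g w) : Ew β n h f = Ew β n h g := by
  rw [funext hfg]

theorem Ew_const_le (hβ : Wts β) {Λ c : ℝ} (hΛ : ∀ h, 1 / 2 * (β h false + β h true) ≤ Λ)
    (hc : 0 ≤ c) (n : ℕ) (h : List Bool) : Ew β n h (fun _ => c) ≤ c * Λ ^ n := by
  have hΛ0 : 0 ≤ Λ := by
    have := hΛ []
    have p0 := hβ.pos [] false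
    have p1 := hβ.pos [] true
    linarith
  induction n generalizing h with
  | zero => simp [Ew]
  | succ n ih =>
    simp only [Ew]
    have a := mul_le_mul_of_nonneg_left (ih (false :: h)) (hβ.pos h false).le
    have b := mul_le_mul_of_nonneg_left (ih (true :: h)) (hβ.pos h true).le
    have d := mul_le_mul_of_nonneg_right (hΛ h) (mul_nonneg hc (pow_nonneg hΛ0 n))
    have e : c * Λ ^ (n + 1) = Λ * (c * Λ ^ n) := by ring
    rw [e]
    linarith

theorem E1_expw (hβ : Wts β) {θ : ℝ} (n : ℕ) (h : List Bool) (f : List Bool → ℝ) :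
    Real.exp (θ * E1 (1 / 2) n f) ≤ Ew β n h (fun w => Real.exp (θ * f w)) := by
  induction n generalizing h f with
  | zero => exact le_rfl
  | succ n ih =>
    simp only [E1, Ew]
    have h0 := ih (false :: h) (fun w => f (false :: w))
    have h1 := ih (true :: h) (fun w => f (true :: w))
    set u := E1 (1 / 2) n (fun w => f (false :: w))
    set v := E1 (1 / 2) n (fun w => f (true :: w))
    have p0 := hβ.pos h false
    have p1 := hβ.pos h true
    have hm := hβ.mul h
    set b0 := β h false
    set b1 := β h true
    have e : Real.exp (θ * ((1 - 1 / 2) * u + 1 / 2 * v)) =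
        Real.exp (θ * u / 2) * Real.exp (θ * v / 2) := by
      rw [← Real.exp_add]; congr 1; ring
    have eu : Real.exp (θ * u) = Real.exp (θ * u / 2) * Real.exp (θ * u / 2) := by
      rw [← Real.exp_add]; congr 1; ring
    have ev : Real.exp (θ * v) = Real.exp (θ * v / 2) * Real.exp (θ * v / 2) := by
      rw [← Real.exp_add]; congr 1; ring
    rw [e]
    rw [eu] at h0
    rw [ev] at h1
    set p := Real.exp (θ * u / 2)
    set q := Real.exp (θ * v / 2)
    have k0 := mul_le_mul_of_nonneg_left h0 p0.le
    have k1 := mul_le_mul_of_nonneg_left h1 p1.le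
    have key : 2 * (p * q) ≤ b0 * (p * p) + b1 * (q * q) := by
      have s := mul_nonneg p1.le (mul_self_nonneg (b0 * p - q))
      have s' : b1 * ((b0 * p - q) * (b0 * p - q)) =
          (b0 * b1) * (b0 * (p * p)) - 2 * (b0 * b1) * (p * q) + b1 * (q * q) := by ring
      rw [s', hm] at s
      linarith
    linarith

theorem EL_expw (hβ : Wts β) {θ : ℝ} (n : ℕ) (h k : List Bool) :
    Real.exp (θ * EL (1 / 2) n) ≤
      Ew β n h (fun x => Ew β n k (fun y => Real.exp (θ * (LCS x y : ℝ)))) := by
  rw [EL_eq]
  refine (E1_expw hβ n h _).trans ?_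
  exact Ew_mono hβ _ _ (fun x => E1_expw hβ n k _)

end Pool.Agent.ad013a
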